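import Pool.Agent.Work.MP_1ce445_s7.Interface

namespace Pool.Agent.Work.MP_1ce445_s7

open Finset Pool.Agent.Work.MP_1ce445_co_56 Pool.Agent.Work.MP_1ce445_lin

lemma ALG_pr {V : Type} [Fintype V] {k : ℕ} (T : V → Finset (Fin k)) (hN : 0 < Fintype.card V)
    (x : Fin k) : 0 ≤ pr T x ∧ pr T x ≤ 1 := by
  have hN' : (0 : ℝ) < Fintype.card V := by exact_mod_cast hN
  unfold pr
  constructor
  · positivity
  · rw [div_le_one hN']
    exact_mod_cast (Finset.card_filter_le _ _).trans (le_of_eq Finset.card_univ)

lemma ALG_single {V : Type} [Fintype V] {k : ℕ} (M : Finset (Fin k)) (T : V → Finset (Fin k))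
    (c : ℝ) (hK : Kg M T c) (i : Fin k) (u : V) (hu : T u = {i}) : 1 - pr T i ≤ c := by
  classical
  have hN' : (0 : ℝ) < Fintype.card V := by exact_mod_cast hK.pos
  have h1 := hK.few u
  have h2 : (univ.filter (fun w => T u ∩ T w = ∅)).card =
      (univ.filter (fun w => i ∉ T w)).card := by
    congr 1
    ext w
    simp only [Finset.mem_filter, Finset.mem_univ, true_and, hu]
    constructor
    · intro h hi
      have : i ∈ ({i} : Finset (Fin k)) ∩ T w := by simp [hi]
      rw [h] at this
      simp at this
    · intro h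
      rw [Finset.eq_empty_iff_forall_notMem]
      intro x hx
      simp only [Finset.mem_inter, Finset.mem_singleton] at hx
      exact h (hx.1 ▸ hx.2)
  have h3 := Finset.card_filter_add_card_filter_not (s := (univ : Finset V)) (fun w => i ∈ T w)
  rw [Finset.card_univ] at h3
  have h4 : ((univ.filter (fun w => i ∈ T w)).card : ℝ) +
      ((univ.filter (fun w => i ∉ T w)).card : ℝ) = Fintype.card V := by exact_mod_cast h3
  have h5 : ((univ.filter (fun w => i ∉ T w)).card : ℝ) ≤ c * Fintype.card V := by
    rw [← h2]; exact h1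
  have h6 : pr T i * Fintype.card V = ((univ.filter (fun w => i ∈ T w)).card : ℝ) := by
    unfold pr
    rw [div_mul_cancel₀ _ hN'.ne']
  by_contra hc
  push Not at hc
  have := mul_lt_mul_of_pos_right hc hN'
  nlinarith

theorem stmt_ALG (h2 : Stmt_ALT) (h3 : Stmt_ONE) : Stmt_ALG := by
  classical
  intro V _ k M T c hK
  have hN' : (0 : ℝ) < Fintype.card V := by exact_mod_cast hK.pos
  have hp := ALG_pr T hK.pos
  have hc0 : 0 ≤ c := by linarith [hK.cl]
  have hne : ∀ v, (T v).Nonempty := by
    intro v
    rw [Finset.nonempty_iff_ne_empty]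
    intro h0
    have h4 := hK.few v
    have h5 : (univ.filter (fun w => T v ∩ T w = ∅)) = (univ : Finset V) := by
      ext w
      simp [h0]
    rw [h5, Finset.card_univ] at h4
    have := hK.cu
    nlinarith
  by_cases hs : ∃ (i : Fin k) (u : V), T u = {i}
  · obtain ⟨i, u, hu⟩ := hs
    by_cases huniq : ∀ (j : Fin k) (v : V), T v = {j} → j = i
    · exact h3 M T c hK i u hu huniq
    · push Not at huniq
      obtain ⟨j, v, hv, hji⟩ := huniq
      have hi := ALG_single M T c hK i u hu
      have hj := ALG_single M T c hK j v hv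
      have hiM : i ∈ M := by
        have := hK.sub u
        rw [hu] at this
        exact this (Finset.mem_singleton_self i)
      have hjM : j ∈ M.erase i := by
        have := hK.sub v
        rw [hv] at this
        exact Finset.mem_erase.mpr ⟨hji, this (Finset.mem_singleton_self j)⟩
      unfold Bd
      rw [← Finset.mul_prod_erase M _ hiM, ← Finset.mul_prod_erase (M.erase i) _ hjM]
      have h7 : ∏ x ∈ (M.erase i).erase j, (1 - pr T x) ≤ 1 := by
        apply Finset.prod_le_one
        · intro x _; linarith [(hp x).2]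
        · intro x _; linarith [(hp x).1]
      have h8 : 0 ≤ ∏ x ∈ (M.erase i).erase j, (1 - pr T x) := by
        apply Finset.prod_nonneg
        intro x _; linarith [(hp x).2]
      have hi0 : 0 ≤ 1 - pr T i := by linarith [(hp i).2]
      have hj0 : 0 ≤ 1 - pr T j := by linarith [(hp j).2]
      have h9 : (1 - pr T j) * ∏ x ∈ (M.erase i).erase j, (1 - pr T x) ≤ c := by
        calc (1 - pr T j) * ∏ x ∈ (M.erase i).erase j, (1 - pr T x) ≤ (1 - pr T j) * 1 :=
              mul_le_mul_of_nonneg_left h7 hj0
          _ ≤ c := by linarith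
      have h10 : c * c ≤ 1 / 27 := by nlinarith [hK.cu]
      have h11 : (1 / 27 : ℝ) ≤ BB c := le_max_left _ _
      calc (1 - pr T i) * ((1 - pr T j) * ∏ x ∈ (M.erase i).erase j, (1 - pr T x)) ≤ c * c :=
            mul_le_mul hi h9 (mul_nonneg hj0 h8) hc0
        _ ≤ BB c := h10.trans h11
  · push Not at hs
    have htwo : ∀ v, 2 ≤ (T v).card := by
      intro v
      have h4 : 0 < (T v).card := Finset.card_pos.mpr (hne v)
      have h5 : (T v).card ≠ 1 := by
        intro h
        obtain ⟨j, hj⟩ := Finset.card_eq_one.mp h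
        exact hs j v hj
      omega
    exact h2 M T c { toKg := hK, two := htwo }

end Pool.Agent.Work.MP_1ce445_s7
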