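import Pool.Agent.Work.MP_1ce445_s7.Interface

namespace Pool.Agent.Work.MP_1ce445_s7

open Finset Pool.Agent.Work.MP_1ce445_co_56 Pool.Agent.Work.MP_1ce445_lin

theorem CKA_miss {V : Type} [Fintype V] {k : ℕ} {M : Finset (Fin k)} {T : V → Finset (Fin k)} {c : ℝ}
    (hK : Kf M T c) {a b : Fin k} (h : R T a b) :
    ((univ.filter (fun v => a ∉ T v ∧ b ∉ T v)).card : ℝ) ≤ c * Fintype.card V := by
  obtain ⟨_, v0, hv0⟩ := h
  refine le_trans ?_ (hK.few v0)
  have : univ.filter (fun v => a ∉ T v ∧ b ∉ T v) ⊆ univ.filter (fun w => T v0 ∩ T w = ∅) := by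
    intro v hv
    rw [mem_filter] at hv ⊢
    refine ⟨mem_univ _, ?_⟩
    rw [hv0]
    ext x
    simp only [mem_inter, mem_insert, mem_singleton, notMem_empty, iff_false, not_and]
    rintro (rfl | rfl)
    · exact hv.2.1
    · exact hv.2.2
  exact_mod_cast card_le_card this

theorem CKA_pair {k : ℕ} {S : Finset (Fin k)} (hS : S.card = 2) {a b : Fin k} (hab : a ≠ b) (ha : a ∈ S)
    (hb : b ∈ S) : S = {a, b} := by
  symm
  apply Finset.eq_of_subset_of_card_le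
  · intro x hx
    rcases Finset.mem_insert.1 hx with rfl | hx
    · exact ha
    · rw [Finset.mem_singleton.1 hx]
      exact hb
  · rw [hS, Finset.card_pair hab]

theorem CKA_three {k : ℕ} {S : Finset (Fin k)} (hS : S.card = 2) {a b d : Fin k} (hab : a ≠ b) (had : a ≠ d)
    (hbd : b ≠ d) (ha : a ∈ S) (hb : b ∈ S) (hd : d ∈ S) : False := by
  rw [CKA_pair hS hab ha hb] at hd
  rcases Finset.mem_insert.1 hd with h | h
  · exact had h.symm
  · exact hbd (Finset.mem_singleton.1 h).symm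

theorem CKA_log : (14603 / 10000 : ℝ) ≤ Real.log (12 / 5) + Real.log (9 / 5) := by
  have h1 : Real.log (12 / 5) + Real.log (9 / 5) = 2 * Real.log 2 + Real.log (27 / 25) := by
    rw [← Real.log_mul (by norm_num) (by norm_num)]
    have : (2 : ℝ) * Real.log 2 = Real.log (2 ^ 2) := by
      rw [Real.log_pow]
      norm_num
    rw [this, ← Real.log_mul (by norm_num) (by norm_num)]
    norm_num
  have h2 := Real.one_sub_inv_le_log_of_pos (show (0 : ℝ) < 27 / 25 by norm_num)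
  have h3 := Real.log_two_gt_d9
  rw [h1]
  norm_num at h2
  linarith

theorem stmt_CKA (hTG : Stmt_TG) (hLPC : Stmt_LPC) (hC4S : Stmt_C4S) : Stmt_CKA := by
  classical
  intro V _ k M T c hK x1 x2 x3 x4 hnd h13 h14 h23 h24 h12 hnx h34 htr
  have hnd' : x1 ≠ x2 ∧ x1 ≠ x3 ∧ x1 ≠ x4 ∧ x2 ≠ x3 ∧ x2 ≠ x4 ∧ x3 ≠ x4 := by
    simp only [List.nodup_cons, List.mem_cons, List.not_mem_nil, or_false, not_or, List.nodup_nil] at hnd
    tauto
  obtain ⟨n12, n13, n14, n23, n24, n34⟩ := hnd'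
  have hinj : Function.Injective (![x1, x2, x3, x4] : Fin 4 → Fin k) := by
    intro i j hij
    fin_cases i <;> fin_cases j <;> simp_all
  have hN : (0 : ℝ) < Fintype.card V := by exact_mod_cast hK.pos
  set N : ℝ := (Fintype.card V : ℝ) with hNdef
  have hpt : ∀ v, (6 : ℝ) ≤ ((T v).card : ℝ) +
      (∑ i, if (![x1, x2, x3, x4] : Fin 4 → Fin k) i ∈ T v then
        ((![12 / 5, 12 / 5, 9 / 5, 9 / 5] : Fin 4 → ℝ) i) - 1 else 0) +
      (9 / 5 * (if x1 ∉ T v ∧ x3 ∉ T v then (1 : ℝ) else 0) +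
       9 / 5 * (if x1 ∉ T v ∧ x4 ∉ T v then (1 : ℝ) else 0) +
       9 / 5 * (if x2 ∉ T v ∧ x3 ∉ T v then (1 : ℝ) else 0) +
       9 / 5 * (if x2 ∉ T v ∧ x4 ∉ T v then (1 : ℝ) else 0) +
       7 / 5 * (if x1 ∉ T v ∧ x2 ∉ T v then (1 : ℝ) else 0) +
       (if T v = {x1, x2} then (1 : ℝ) else 0) +
       1 / 5 * (if x1 ∈ T v ∧ x2 ∈ T v ∧ x3 ∉ T v ∧ x4 ∉ T v then (1 : ℝ) else 0)) := by
    intro v
    rw [Fin.sum_univ_four]
    have h2 := hK.two v
    have hnn : (0 : ℝ) ≤ (if T v = {x1, x2} then (1 : ℝ) else 0) := by split_ifs <;> norm_num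
    rcases Nat.eq_or_lt_of_le h2 with hc | hc
    · have hc' : (T v).card = 2 := hc.symm
      have hcr : ((T v).card : ℝ) = 2 := by exact_mod_cast hc'
      rw [hcr]
      have e34 : ¬ (x3 ∈ T v ∧ x4 ∈ T v) := fun h => h34 ⟨n34, v, CKA_pair hc' n34 h.1 h.2⟩
      have e12 : x1 ∈ T v → x2 ∈ T v → T v = {x1, x2} := fun a b => CKA_pair hc' n12 a b
      have t123 : ¬ (x1 ∈ T v ∧ x2 ∈ T v ∧ x3 ∈ T v) := fun h => CKA_three hc' n12 n13 n23 h.1 h.2.1 h.2.2
      have t124 : ¬ (x1 ∈ T v ∧ x2 ∈ T v ∧ x4 ∈ T v) := fun h => CKA_three hc' n12 n14 n24 h.1 h.2.1 h.2.2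
      by_cases m1 : x1 ∈ T v <;> by_cases m2 : x2 ∈ T v <;> by_cases m3 : x3 ∈ T v <;> by_cases m4 : x4 ∈ T v
      all_goals first
        | (exfalso; exact e34 ⟨m3, m4⟩)
        | (exfalso; exact t123 ⟨m1, m2, m3⟩)
        | (exfalso; exact t124 ⟨m1, m2, m4⟩)
        | (rw [if_pos (e12 m1 m2)]; simp [m1, m2, m3, m4]; norm_num; done)
        | (simp only [m1, m2, m3, m4, Matrix.cons_val_zero, Matrix.cons_val_one, Matrix.cons_val,
            if_true, if_false, not_true_eq_false, not_false_eq_true, and_true, true_and, and_false,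
            false_and, and_self]; linarith)
    · have hcr : (3 : ℝ) ≤ ((T v).card : ℝ) := by exact_mod_cast hc
      by_cases m1 : x1 ∈ T v <;> by_cases m2 : x2 ∈ T v <;> by_cases m3 : x3 ∈ T v <;> by_cases m4 : x4 ∈ T v
      all_goals
        (simp only [m1, m2, m3, m4, Matrix.cons_val_zero, Matrix.cons_val_one, Matrix.cons_val,
            if_true, if_false, not_true_eq_false, not_false_eq_true, and_true, true_and, and_false,
            false_and, and_self]; linarith)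
  have h := hLPC M T hK.pos hK.sub 4 ![x1, x2, x3, x4] ![12 / 5, 12 / 5, 9 / 5, 9 / 5] _ 6 hinj
    (by intro i; fin_cases i <;> norm_num) hpt
  refine h.trans (le_trans (Real.exp_le_exp.2 ?_)
    (hTG c (2 * (7 / 5) + 2 * (4 / 5) - 2 * (Real.log (12 / 5) + Real.log (9 / 5)) - 6) (49 / 5)
      hK.cl hK.cu (by norm_num) ?_ ?_))
  · have s13 := CKA_miss hK h13
    have s14 := CKA_miss hK h14
    have s23 := CKA_miss hK h23
    have s24 := CKA_miss hK h24
    have s12 := CKA_miss hK h12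
    have hC := hC4S M T c hK x1 x2 x3 x4 hnd
    have hsq : (0 : ℝ) ≤ ∑ x ∈ M.filter (fun x => ∀ i, x ≠ ![x1, x2, x3, x4] i), pr T x ^ 2 :=
      sum_nonneg (fun _ _ => sq_nonneg _)
    have hS : (∑ v, (9 / 5 * (if x1 ∉ T v ∧ x3 ∉ T v then (1 : ℝ) else 0) +
       9 / 5 * (if x1 ∉ T v ∧ x4 ∉ T v then (1 : ℝ) else 0) +
       9 / 5 * (if x2 ∉ T v ∧ x3 ∉ T v then (1 : ℝ) else 0) +
       9 / 5 * (if x2 ∉ T v ∧ x4 ∉ T v then (1 : ℝ) else 0) +
       7 / 5 * (if x1 ∉ T v ∧ x2 ∉ T v then (1 : ℝ) else 0) +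
       (if T v = {x1, x2} then (1 : ℝ) else 0) +
       1 / 5 * (if x1 ∈ T v ∧ x2 ∈ T v ∧ x3 ∉ T v ∧ x4 ∉ T v then (1 : ℝ) else 0))) / N ≤
        43 / 5 * c + c + 1 / 5 * tr T x1 x2 x3 x4 := by
      have htr' : tr T x1 x2 x3 x4 * N =
          ((univ.filter (fun v => x1 ∈ T v ∧ x2 ∈ T v ∧ x3 ∉ T v ∧ x4 ∉ T v)).card : ℝ) := by
        unfold tr
        rw [← hNdef]
        field_simp
      rw [div_le_iff₀ hN]
      simp only [sum_add_distrib, ← mul_sum, Finset.sum_boole]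
      unfold nx at hnx
      rw [← htr']
      nlinarith [s13, s14, s23, s24, s12, hnx]
    have hq : 1 / 5 * tr T x1 x2 x3 x4 -
        (∑ x ∈ M.filter (fun x => ∀ i, x ≠ ![x1, x2, x3, x4] i), pr T x ^ 2) / 2 ≤ c / 5 := by
      rcases le_total c (tr T x1 x2 x3 x4) with hc | hc
      · nlinarith [mul_le_mul_of_nonneg_right htr (sub_nonneg.2 hc)]
      · linarith
    have e1 : (∑ i : Fin 4, ((![12 / 5, 12 / 5, 9 / 5, 9 / 5] : Fin 4 → ℝ) i - 1 -
        Real.log ((![12 / 5, 12 / 5, 9 / 5, 9 / 5] : Fin 4 → ℝ) i))) =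
        2 * (7 / 5) + 2 * (4 / 5) - 2 * (Real.log (12 / 5) + Real.log (9 / 5)) := by
      rw [Fin.sum_univ_four]
      simp only [Matrix.cons_val_zero, Matrix.cons_val_one, Matrix.cons_val]
      ring
    rw [e1]
    linarith
  · have := CKA_log
    linarith
  · have := CKA_log
    linarith

end Pool.Agent.Work.MP_1ce445_s7
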