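import Pool.Agent.Work.MP_1ce445_s7.Interface

/-! # Block ONE: exactly one singleton -/

namespace Pool.Agent.Work.MP_1ce445_s7

open Finset Pool.Agent.Work.MP_1ce445_co_56 Pool.Agent.Work.MP_1ce445_lin

lemma ONE_pairs {V : Type} [Fintype V] {k : ℕ} (T : V → Finset (Fin k)) (S : Finset (Fin k))
    (B C : Finset V) (m : ℝ)
    (h : ∀ v ∈ B, m ≤ ((C.filter (fun w => ∃ x ∈ S, x ∈ T v ∧ x ∈ T w)).card : ℝ)) :
    (B.card : ℝ) * m ≤ ∑ x ∈ S, (((B.filter (fun v => x ∈ T v)).card : ℝ) *
      ((C.filter (fun w => x ∈ T w)).card : ℝ)) := by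
  classical
  have e1 : ∀ x ∈ S, (((B.filter (fun v => x ∈ T v)).card : ℝ) *
      ((C.filter (fun w => x ∈ T w)).card : ℝ)) =
      ∑ v ∈ B, if x ∈ T v then ((C.filter (fun w => x ∈ T w)).card : ℝ) else 0 := by
    intro x _
    rw [← Finset.sum_filter, Finset.sum_const, nsmul_eq_mul]
  rw [Finset.sum_congr rfl e1, Finset.sum_comm]
  rw [← nsmul_eq_mul, ← Finset.sum_const]
  apply Finset.sum_le_sum
  intro v hv
  refine (h v hv).trans ?_
  rw [← Finset.sum_filter]
  have : (C.filter (fun w => ∃ x ∈ S, x ∈ T v ∧ x ∈ T w)).card ≤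
      ∑ x ∈ S.filter (fun x => x ∈ T v), (C.filter (fun w => x ∈ T w)).card := by
    refine le_trans (Finset.card_le_card ?_) (Finset.card_biUnion_le)
    intro w hw
    simp only [Finset.mem_filter, Finset.mem_biUnion] at hw ⊢
    obtain ⟨hwC, x, hxS, hxv, hxw⟩ := hw
    exact ⟨x, ⟨hxS, hxv⟩, hwC, hxw⟩
  exact_mod_cast this

lemma ONE_point {k : ℕ} (i : Fin k) (S : Finset (Fin k)) (hne : S.Nonempty)
    (hu : ∀ j, S = {j} → j = i) :
    (1 : ℝ) + (if i ∉ S then 1 else 0) - (if S = {i} then 1 else 0) ≤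
      (S.card : ℝ) - (if i ∈ S then 1 else 0) := by
  have h2 : S ≠ {i} → 2 ≤ S.card := by
    intro hS
    have h0 : 0 < S.card := Finset.card_pos.mpr hne
    have h1 : S.card ≠ 1 := by
      intro h
      obtain ⟨j, hj⟩ := Finset.card_eq_one.mp h
      have := hu j hj
      rw [this] at hj
      exact hS hj
    omega
  by_cases hi : i ∈ S
  · by_cases hs : S = {i}
    · have : S.card = 1 := by rw [hs]; simp
      rw [if_neg (by simpa using hi), if_pos hs, if_pos hi, this]
      norm_num
    · have := h2 hs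
      have h3 : (2 : ℝ) ≤ S.card := by exact_mod_cast this
      rw [if_neg (by simpa using hi), if_neg hs, if_pos hi]
      linarith
  · have hs : S ≠ {i} := by
      intro h
      apply hi
      rw [h]
      simp
    have := h2 hs
    have h3 : (2 : ℝ) ≤ S.card := by exact_mod_cast this
    rw [if_pos hi, if_neg hs, if_neg hi]
    linarith

theorem ONE_pr {V : Type} [Fintype V] {k : ℕ} (T : V → Finset (Fin k)) (j : Fin k)
    (hN : 0 < Fintype.card V) :
    pr T j * Fintype.card V = ((univ.filter (fun v => j ∈ T v)).card : ℝ) := by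
  have h : (Fintype.card V : ℝ) ≠ 0 := by exact_mod_cast hN.ne'
  unfold pr
  rw [div_mul_cancel₀ _ h]

theorem ONE_five {V : Type} [Fintype V] {k : ℕ} {M : Finset (Fin k)} {T : V → Finset (Fin k)}
    (hN : 0 < Fintype.card V) (hT : ∀ v, T v ⊆ M) :
    ∑ j ∈ M, pr T j * Fintype.card V = ∑ v, ((T v).card : ℝ) := by
  classical
  have h1 : ∑ j ∈ M, (univ.filter (fun v => j ∈ T v)).card = ∑ v, (T v).card := by
    have h2 : ∀ j ∈ M, (univ.filter (fun v => j ∈ T v)).card = ∑ v, if j ∈ T v then 1 else 0 :=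
      fun j _ => Finset.card_filter _ _
    rw [Finset.sum_congr rfl h2, Finset.sum_comm]
    refine Finset.sum_congr rfl fun v _ => ?_
    rw [← Finset.card_filter]
    congr 1
    ext j
    rw [Finset.mem_filter]
    exact ⟨fun hj => hj.2, fun hj => ⟨hT v hj, hj⟩⟩
  have h3 : ∑ j ∈ M, pr T j * Fintype.card V =
      ((∑ j ∈ M, (univ.filter (fun v => j ∈ T v)).card : ℕ) : ℝ) := by
    rw [Nat.cast_sum]
    exact Finset.sum_congr rfl fun j _ => ONE_pr T j hN
  rw [h3, h1, Nat.cast_sum]

theorem ONE_p01 {V : Type} [Fintype V] {k : ℕ} (T : V → Finset (Fin k)) (j : Fin k)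
    (hN : 0 < Fintype.card V) : 0 ≤ pr T j ∧ pr T j ≤ 1 := by
  have hN' : (0 : ℝ) < Fintype.card V := by exact_mod_cast hN
  constructor
  · unfold pr
    positivity
  · have h2 : (univ.filter (fun v => j ∈ T v)).card ≤ Fintype.card V := by
      rw [← Finset.card_univ]
      exact Finset.card_le_card (Finset.filter_subset _ _)
    have h3 : ((univ.filter (fun v => j ∈ T v)).card : ℝ) ≤ Fintype.card V := by
      exact_mod_cast h2
    unfold pr
    rw [div_le_one hN']
    exact h3

/-- the real inequality -/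
lemma ONE_real (c q : ℝ) (h1 : 301 / 2500 ≤ c) (h2 : c ≤ 17 / 100) (hq0 : 0 < q) (hqc : q ≤ c) :
    Real.log q - (8883 / 10000 * (1 + q - c) + 1943 / 2000 * (4 * q * (1 - q - c))) ≤
      -(81 / 20) + 31 / 5 * c := by
  have hl1 := Real.log_two_gt_d9
  have e1 : Real.log q ≤ -(3 * Real.log 2) + (8 * q - 1) := by
    have h3 := Real.log_le_sub_one_of_pos (show 0 < 8 * q by positivity)
    rw [Real.log_mul (by norm_num) hq0.ne'] at h3
    have h4 : Real.log 8 = 3 * Real.log 2 := by
      have : (8 : ℝ) = 2 ^ 3 := by norm_num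
      rw [this, Real.log_pow]
      norm_num
    linarith
  have e2 : 8 * q - 1 - (8883 / 10000 * (1 + q - c) + 1943 / 2000 * (4 * q * (1 - q - c))) -
      31 / 5 * c ≤ -(99 / 50) := by
    nlinarith [mul_nonneg hq0.le (sub_nonneg.mpr hqc), mul_nonneg (sub_nonneg.mpr h1) (sub_nonneg.mpr h2),
      mul_nonneg hq0.le (sub_nonneg.mpr h2), mul_nonneg (sub_nonneg.mpr hqc) (sub_nonneg.mpr h2)]
  linarith

theorem stmt_ONE (hTG : Stmt_TG) (h1 : Stmt_TA) : Stmt_ONE := by
  classical
  intro V _ k M T c hS i u hu huniq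
  have hp : ∀ x, 0 ≤ pr T x ∧ pr T x ≤ 1 := fun x => ONE_p01 T x hS.pos
  have hdc := ONE_five (M := M) hS.pos hS.sub
  have hN : (0 : ℝ) < Fintype.card V := by exact_mod_cast hS.pos
  have hc3 := hS.cl
  have hc2 := hS.cu
  have hiM : i ∈ M := by
    have := hS.sub u
    rw [hu] at this
    exact this (Finset.mem_singleton_self i)
  set N : ℝ := (Fintype.card V : ℝ) with hNdef
  have hne : ∀ v, (T v).Nonempty := by
    intro v
    rw [Finset.nonempty_iff_ne_empty]
    intro h0
    have h2 := hS.few v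
    have h3 : (univ.filter (fun w => T v ∩ T w = ∅)) = (univ : Finset V) := by
      apply Finset.filter_true_of_mem
      intro w _
      rw [h0, Finset.empty_inter]
    rw [h3, Finset.card_univ] at h2
    nlinarith
  set B : Finset V := univ.filter (fun v => i ∉ T v) with hB
  set D : Finset V := univ.filter (fun v => i ∈ T v) with hD
  set A : Finset V := univ.filter (fun v => T v = {i}) with hA
  have hDc : (D.card : ℝ) = pr T i * N := by
    unfold pr
    rw [div_mul_cancel₀ _ hN.ne']
  have hBDc : (D.card : ℝ) + B.card = N := by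
    have := Finset.card_filter_add_card_filter_not (s := (univ : Finset V)) (fun v => i ∈ T v)
    rw [Finset.card_univ] at this
    rw [hNdef]
    exact_mod_cast this
  have hBc : (B.card : ℝ) = (1 - pr T i) * N := by linarith
  have hq0 : 0 ≤ 1 - pr T i := by linarith [(hp i).2]
  have hqc : 1 - pr T i ≤ c := by
    have h2 := hS.few u
    have h3 : (univ.filter (fun w => T u ∩ T w = ∅)) = B := by
      rw [hB]
      apply Finset.filter_congr
      intro w _
      rw [hu, Finset.singleton_inter]
      by_cases hw : i ∈ T w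
      · simp [hw]
      · simp [hw]
    rw [h3, hBc] at h2
    exact le_of_mul_le_mul_right h2 hN
  unfold Bd
  rw [← Finset.mul_prod_erase M _ hiM]
  rcases eq_or_lt_of_le hq0 with hq | hq
  · rw [← hq, zero_mul]
    have h27 : (1 / 27 : ℝ) ≤ BB c := by
      unfold BB
      exact le_max_left _ _
    linarith
  have hfin : Real.exp (-(81 / 20) + 31 / 5 * c) ≤ BB c :=
    hTG c _ _ hc3 hc2 (by norm_num) (by norm_num) (by norm_num)
  refine le_trans ?_ hfin
  have hre := ONE_real c (1 - pr T i) hc3 hc2 hq hqc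
  have hprod : ∏ x ∈ M.erase i, (1 - pr T x) ≤
      Real.exp (-(8883 / 10000 * ∑ x ∈ M.erase i, pr T x +
      1943 / 2000 * ∑ x ∈ M.erase i, pr T x ^ 2)) := by
    calc ∏ x ∈ M.erase i, (1 - pr T x) ≤
        ∏ x ∈ M.erase i, Real.exp (-(8883 / 10000 * pr T x +
          1943 / 2000 * pr T x ^ 2)) := by
          apply Finset.prod_le_prod
          · intro x _
            linarith [(hp x).2]
          · intro x _
            exact h1 (pr T x) (hp x).1 (hp x).2
      _ = _ := by
          rw [← Real.exp_sum]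
          congr 1
          rw [Finset.sum_neg_distrib, Finset.sum_add_distrib, Finset.mul_sum, Finset.mul_sum]
  refine (mul_le_mul_of_nonneg_left hprod hq0).trans ?_
  conv_lhs => rw [← Real.exp_log hq]
  rw [← Real.exp_add]
  apply Real.exp_le_exp.mpr
  have hBne : B.Nonempty := by
    rw [← Finset.card_pos]
    have : (0 : ℝ) < B.card := by rw [hBc]; exact mul_pos hq hN
    exact_mod_cast this
  have hlow : ∀ v, (1 - c) * N ≤ ((univ.filter (fun w => ¬ T v ∩ T w = ∅)).card : ℝ) := by
    intro v
    have h2 := hS.few v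
    have h3 := Finset.card_filter_add_card_filter_not (s := (univ : Finset V))
      (fun w => T v ∩ T w = ∅)
    rw [Finset.card_univ] at h3
    have h4 : ((univ.filter (fun w => T v ∩ T w = ∅)).card : ℝ) +
        ((univ.filter (fun w => ¬ T v ∩ T w = ∅)).card : ℝ) = N := by
      rw [hNdef]
      exact_mod_cast h3
    linarith
  -- the bound for A
  have hAc : (A.card : ℝ) ≤ c * N := by
    obtain ⟨v, hv⟩ := hBne
    have hvi : i ∉ T v := by simpa [hB] using hv
    have hsub : A ⊆ univ.filter (fun w => T v ∩ T w = ∅) := by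
      intro w hwA
      simp only [Finset.mem_filter, Finset.mem_univ, true_and, hA] at hwA ⊢
      rw [hwA, Finset.inter_singleton_of_notMem hvi]
    have hc : (A.card : ℝ) ≤ ((univ.filter (fun w => T v ∩ T w = ∅)).card : ℝ) := by
      exact_mod_cast Finset.card_le_card hsub
    exact hc.trans (hS.few v)
  -- first bound
  have hs1 : 1 + (1 - pr T i) - c ≤ ∑ x ∈ M.erase i, pr T x := by
    have e1 : (∑ x ∈ M.erase i, pr T x) * N = ∑ v, ((T v).card : ℝ) - D.card := by
      rw [← hdc, ← Finset.add_sum_erase M _ hiM, Finset.sum_mul, hDc]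
      ring
    have e2 : (D.card : ℝ) = ∑ v, (if i ∈ T v then (1 : ℝ) else 0) := by
      rw [← Finset.sum_filter, Finset.sum_const, nsmul_eq_mul, mul_one]
    have e3 : (B.card : ℝ) = ∑ v, (if i ∉ T v then (1 : ℝ) else 0) := by
      rw [← Finset.sum_filter, Finset.sum_const, nsmul_eq_mul, mul_one]
    have e4 : (A.card : ℝ) = ∑ v, (if T v = {i} then (1 : ℝ) else 0) := by
      rw [← Finset.sum_filter, Finset.sum_const, nsmul_eq_mul, mul_one]
    have e5 : N = ∑ _v : V, (1 : ℝ) := by
      rw [Finset.sum_const, nsmul_eq_mul, mul_one, Finset.card_univ]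
    have e6 : N + B.card - A.card ≤ ∑ v, ((T v).card : ℝ) - D.card := by
      rw [e2, e3, e4, e5, ← Finset.sum_add_distrib, ← Finset.sum_sub_distrib,
        ← Finset.sum_sub_distrib]
      apply Finset.sum_le_sum
      intro v _
      exact ONE_point i (T v) (hne v) (fun j hj => huniq j v hj)
    have e7 : (1 + (1 - pr T i) - c) * N ≤ (∑ x ∈ M.erase i, pr T x) * N := by
      rw [e1]
      nlinarith
    exact le_of_mul_le_mul_right e7 hN
  -- second bound
  have hs2 : 4 * (1 - pr T i) * (1 - (1 - pr T i) - c) ≤ ∑ x ∈ M.erase i, pr T x ^ 2 := by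
    have hpairs := ONE_pairs T (M.erase i) B D ((1 - c) * N - B.card) (by
      intro v hv
      have hvi : i ∉ T v := by simpa [hB] using hv
      have hsub : univ.filter (fun w => ¬ T v ∩ T w = ∅) ⊆
          D.filter (fun w => ∃ x ∈ M.erase i, x ∈ T v ∧ x ∈ T w) ∪ B := by
        intro w hw
        simp only [Finset.mem_filter, Finset.mem_univ, true_and] at hw
        rw [Finset.mem_union]
        by_cases hwi : i ∈ T w
        · left
          obtain ⟨x, hx⟩ := Finset.nonempty_iff_ne_empty.mpr hw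
          rw [Finset.mem_inter] at hx
          rw [Finset.mem_filter]
          refine ⟨by simp [hD, hwi], x, ?_, hx.1, hx.2⟩
          rw [Finset.mem_erase]
          refine ⟨?_, hS.sub v hx.1⟩
          rintro rfl
          exact hvi hx.1
        · right
          simp [hB, hwi]
      have hc := (Finset.card_le_card hsub).trans (Finset.card_union_le _ _)
      have hc' : ((univ.filter (fun w => ¬ T v ∩ T w = ∅)).card : ℝ) ≤
          ((D.filter (fun w => ∃ x ∈ M.erase i, x ∈ T v ∧ x ∈ T w)).card : ℝ) + B.card := by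
        exact_mod_cast hc
      have := hlow v
      linarith)
    have hsq : ∀ x ∈ M.erase i, 4 * (((B.filter (fun v => x ∈ T v)).card : ℝ) *
        ((D.filter (fun w => x ∈ T w)).card : ℝ)) ≤ pr T x ^ 2 * N ^ 2 := by
      intro x _
      have hx1 : pr T x * N = ((univ.filter (fun v => x ∈ T v)).card : ℝ) := by
        unfold pr
        rw [div_mul_cancel₀ _ hN.ne']
      have hx2 : ((univ.filter (fun v => x ∈ T v)).card : ℝ) =
          ((D.filter (fun v => x ∈ T v)).card : ℝ) + ((B.filter (fun v => x ∈ T v)).card : ℝ) := by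
        have := Finset.card_filter_add_card_filter_not
          (s := univ.filter (fun v => x ∈ T v)) (fun v => i ∈ T v)
        rw [Finset.filter_comm, Finset.filter_comm (fun v => x ∈ T v) (fun v => i ∉ T v)] at this
        exact_mod_cast this.symm
      rw [← mul_pow, hx1, hx2]
      nlinarith [sq_nonneg (((D.filter (fun v => x ∈ T v)).card : ℝ) -
        ((B.filter (fun v => x ∈ T v)).card : ℝ))]
    have hsum := Finset.sum_le_sum hsq
    rw [← Finset.mul_sum, ← Finset.sum_mul] at hsum
    have hN2 : 0 < N ^ 2 := by positivity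
    have e7 : (4 * (1 - pr T i) * (1 - (1 - pr T i) - c)) * N ^ 2 ≤
        (∑ x ∈ M.erase i, pr T x ^ 2) * N ^ 2 := by
      refine le_trans ?_ hsum
      refine le_trans (le_of_eq ?_) (mul_le_mul_of_nonneg_left hpairs (by norm_num : (0:ℝ) ≤ 4))
      rw [hBc]
      ring
    exact le_of_mul_le_mul_right e7 hN2
  have m1 := mul_le_mul_of_nonneg_left hs1 (show (0 : ℝ) ≤ 8883 / 10000 by norm_num)
  have m2 := mul_le_mul_of_nonneg_left hs2 (show (0 : ℝ) ≤ 1943 / 2000 by norm_num)
  have e8 : 1 - (1 - pr T i) - c = 1 - (1 - pr T i) - c := rfl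
  linarith

end Pool.Agent.Work.MP_1ce445_s7
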