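import Pool.Agent.Work.MP_1ce445_s7.Interface

/-! # Block PWS: a triangle `x y z` in which all other 2-sets contain `x`, `1 - p_x ≤ 9/20` -/

namespace Pool.Agent.Work.MP_1ce445_s7

open Finset Pool.Agent.Work.MP_1ce445_co_56 Pool.Agent.Work.MP_1ce445_lin

theorem PWS_pr01 {V : Type} [Fintype V] {k : ℕ} (T : V → Finset (Fin k)) (j : Fin k)
    (hN : 0 < Fintype.card V) : 0 ≤ pr T j ∧ pr T j ≤ 1 := by
  have hN' : (0 : ℝ) < Fintype.card V := by exact_mod_cast hN
  constructor
  · unfold pr
    positivity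
  · have h2 : (univ.filter (fun v => j ∈ T v)).card ≤ Fintype.card V := by
      rw [← Finset.card_univ]
      exact Finset.card_le_card (Finset.filter_subset _ _)
    have h3 : ((univ.filter (fun v => j ∈ T v)).card : ℝ) ≤ Fintype.card V := by
      exact_mod_cast h2
    unfold pr
    rw [div_le_one hN']
    exact h3

theorem PWS_prodA {k : ℕ} (hTA : Stmt_TA) (A : Finset (Fin k)) (p : Fin k → ℝ)
    (h0 : ∀ j, 0 ≤ p j) (h1 : ∀ j, p j ≤ 1) :
    ∏ j ∈ A, (1 - p j) ≤
      Real.exp (-(8883 / 10000 * (∑ j ∈ A, p j) + 1943 / 2000 * (∑ j ∈ A, p j ^ 2))) := by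
  have h2 : ∏ j ∈ A, (1 - p j) ≤
      ∏ j ∈ A, Real.exp (-(8883 / 10000 * p j + 1943 / 2000 * p j ^ 2)) := by
    refine Finset.prod_le_prod (fun j _ => ?_) (fun j _ => hTA (p j) (h0 j) (h1 j))
    have := h1 j
    linarith
  refine h2.trans (le_of_eq ?_)
  rw [← Real.exp_sum]
  congr 1
  rw [Finset.sum_neg_distrib, Finset.sum_add_distrib, ← Finset.mul_sum, ← Finset.mul_sum]

theorem stmt_PWS (hTA : Stmt_TA) (hSTA : Stmt_STA) (hR1 : Stmt_R1) : Stmt_PWS := by
  classical
  intro V _ k M T c h hl x y z hnd hyz h2 hb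
  have hN : (0 : ℝ) < Fintype.card V := by exact_mod_cast h.pos
  have hxy : x ≠ y := by
    intro e
    subst e
    simp at hnd
  have hxz : x ≠ z := by
    intro e
    subst e
    simp at hnd
  obtain ⟨hyz', v0, hv0⟩ := hyz
  -- x ∈ M
  have hxM : x ∈ M := by
    by_contra hx
    have e : univ.filter (fun v => x ∈ T v) = ∅ := by
      apply Finset.filter_eq_empty_iff.2
      intro v _ hv
      exact hx (h.sub v hv)
    have : pr T x = 0 := by
      unfold pr
      rw [e]
      simp
    rw [this] at hb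
    norm_num at hb
  obtain ⟨s1, s2, -, -⟩ := hSTA M T c h x _ _ rfl rfl
  -- bounds of the masses
  have e0 : ((univ.filter (fun v => (T v).card = 2 ∧ x ∉ T v)).card : ℝ) ≤
      c * Fintype.card V := by
    refine le_trans ?_ (hl y z hyz')
    unfold nx
    have : (univ.filter (fun v => (T v).card = 2 ∧ x ∉ T v)) ⊆
        univ.filter (fun v => T v = {y, z}) := by
      intro v hv
      obtain ⟨hc, hx⟩ := (Finset.mem_filter.1 hv).2
      refine Finset.mem_filter.2 ⟨Finset.mem_univ v, ?_⟩
      rcases h2 v hc with h3 | h3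
      · exact absurd h3 hx
      · exact h3
    exact_mod_cast Finset.card_le_card this
  have om : ((univ.filter (fun v => (T v).card = 2 ∧ x ∈ T v)).card : ℝ) ≤
      3 * (c * Fintype.card V) := by
    have k1 : (univ.filter (fun v => (T v).card = 2 ∧ x ∈ T v)) ⊆
        (univ.filter (fun v => T v = {x, y}) ∪ univ.filter (fun v => T v = {x, z})) ∪
          univ.filter (fun w => T v0 ∩ T w = ∅) := by
      intro v hv
      obtain ⟨hc, hx⟩ := (Finset.mem_filter.1 hv).2
      obtain ⟨a, b', hab, hT⟩ := Finset.card_eq_two.1 hc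
      rw [hT, Finset.mem_insert, Finset.mem_singleton] at hx
      have hj : ∃ j, j ≠ x ∧ T v = {x, j} := by
        rcases hx with hx | hx
        · exact ⟨b', by rw [hx]; exact hab.symm, by rw [hT, hx]⟩
        · exact ⟨a, by rw [hx]; exact hab, by rw [hT, hx]; exact Finset.pair_comm _ _⟩
      obtain ⟨j, hjx, hj⟩ := hj
      rw [Finset.mem_union, Finset.mem_union, Finset.mem_filter, Finset.mem_filter,
        Finset.mem_filter]
      by_cases hy : j = y
      · left; left
        exact ⟨Finset.mem_univ v, by rw [hj, hy]⟩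
      by_cases hz : j = z
      · left; right
        exact ⟨Finset.mem_univ v, by rw [hj, hz]⟩
      right
      refine ⟨Finset.mem_univ v, ?_⟩
      rw [hv0, hj]
      ext t
      simp only [Finset.mem_inter, Finset.mem_insert, Finset.mem_singleton,
        Finset.notMem_empty, iff_false]
      rintro ⟨ht1, ht2⟩
      rcases ht1 with ht1 | ht1 <;> rcases ht2 with ht2 | ht2
      · exact hxy (ht2.symm.trans ht1)
      · exact hy (ht2.symm.trans ht1)
      · exact hxz (ht2.symm.trans ht1)
      · exact hz (ht2.symm.trans ht1)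
    have k2 := Finset.card_le_card k1
    have k3 := Finset.card_union_le
      (univ.filter (fun v => T v = {x, y}) ∪ univ.filter (fun v => T v = {x, z}))
      (univ.filter (fun w => T v0 ∩ T w = ∅))
    have k4 := Finset.card_union_le (univ.filter (fun v => T v = {x, y}))
      (univ.filter (fun v => T v = {x, z}))
    have k5 := hl x y hxy
    have k6 := hl x z hxz
    have k7 := h.few v0
    unfold nx at k5 k6
    have k8 : ((univ.filter (fun v => (T v).card = 2 ∧ x ∈ T v)).card : ℝ) ≤
        (univ.filter (fun v => T v = {x, y})).card +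
        (univ.filter (fun v => T v = {x, z})).card +
        (univ.filter (fun w => T v0 ∩ T w = ∅)).card := by
      exact_mod_cast (k2.trans (k3.trans (Nat.add_le_add_right k4 _)))
    linarith
  have e0' : ((univ.filter (fun v => (T v).card = 2 ∧ x ∉ T v)).card : ℝ) /
      Fintype.card V ≤ c := by
    rw [div_le_iff₀ hN]
    exact e0
  have om' : ((univ.filter (fun v => (T v).card = 2 ∧ x ∈ T v)).card : ℝ) /
      Fintype.card V ≤ 3 * c := by
    rw [div_le_iff₀ hN]
    linarith
  obtain ⟨p0, p1⟩ := PWS_pr01 T x h.pos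
  have r1 := hR1.1 c (1 - pr T x) (∑ j ∈ M.erase x, pr T j) (∑ j ∈ M.erase x, pr T j ^ 2)
    h.cl h.cu (by linarith) hb (by linarith) (by
      have : 4 * (1 - pr T x) * (1 - (1 - pr T x) - c) = 4 * (1 - pr T x) * (pr T x - c) := by
        ring
      rw [this]
      exact s2)
  refine le_trans ?_ r1
  rw [← Finset.mul_prod_erase M (fun j => 1 - pr T j) hxM]
  refine mul_le_mul_of_nonneg_left ?_ (by linarith)
  exact PWS_prodA hTA (M.erase x) (fun j => pr T j) (fun j => (PWS_pr01 T j h.pos).1)
    (fun j => (PWS_pr01 T j h.pos).2)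

end Pool.Agent.Work.MP_1ce445_s7
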