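import Pool.Agent.Work.MP_1ce445_s7.Interface

/-! Block R1: two inequalities for real numbers -/

namespace Pool.Agent.Work.MP_1ce445_s7

open Finset Pool.Agent.Work.MP_1ce445_co_56 Pool.Agent.Work.MP_1ce445_lin

theorem R1_log (x : ℝ) (h0 : 0 ≤ x) (h1 : x < 1) (n : ℕ) :
    Real.log (1 - x) ≤ -∑ i ∈ Finset.range n, x ^ (i + 1) / ((i : ℝ) + 1) := by
  have h := Real.hasSum_pow_div_log_of_abs_lt_one (x := x) (by rw [abs_of_nonneg h0]; exact h1)
  have h2 := sum_le_hasSum (Finset.range n) (fun i _ => by positivity) h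
  linarith

theorem R1_BB (c : ℝ) : 0 ≤ BB c :=
  le_trans (by norm_num : (0 : ℝ) ≤ 1 / 27) (le_max_left _ _)

theorem R1_l1 : Real.log (9 / 20) ≤ -(798 / 1000) := by
  have h := R1_log (11 / 20) (by norm_num) (by norm_num) 10
  norm_num [Finset.sum_range_succ] at h
  linarith

theorem R1_l2 : Real.log (17 / 100) ≤ -(17 / 10) := by
  have h := R1_log (83 / 100) (by norm_num) (by norm_num) 10
  norm_num [Finset.sum_range_succ] at h
  linarith

theorem stmt_R1 (hTG : Stmt_TG) : Stmt_R1 := by
  refine ⟨?_, ?_⟩
  · intro c b S S2 hc1 hc2 hb0 hb1 hS hS2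
    rcases hb0.eq_or_lt with h | hb
    · rw [← h, zero_mul]
      exact R1_BB c
    · obtain ⟨t, ht⟩ : ∃ t : ℝ, t = 1 - 20 / 9 * b := ⟨_, rfl⟩
      have hbt : b = 9 / 20 * (1 - t) := by rw [ht]; ring
      have ht0 : 0 ≤ t := by rw [ht]; linarith
      have ht1 : t < 1 := by rw [ht]; linarith
      have hl : Real.log b ≤ -(798 / 1000) - t - t ^ 2 / 2 := by
        rw [hbt, Real.log_mul (by norm_num) (by linarith)]
        have h2 := R1_log t ht0 ht1 2
        have h3 : ∑ i ∈ Finset.range 2, t ^ (i + 1) / ((i : ℝ) + 1) = t + t ^ 2 / 2 := by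
          rw [Finset.sum_range_succ, Finset.sum_range_succ, Finset.sum_range_zero]
          norm_num
        rw [h3] at h2
        have := R1_l1
        linarith
      have hE : Real.log b + -(8883 / 10000 * S + 1943 / 2000 * S2) ≤
          -(393612 / 100000) + 53019 / 10000 * c := by
        have h4 : 0 ≤ t * (425395 / 1000000 + 17487 / 10000 * c - 286915 / 1000000 * t) :=
          mul_nonneg ht0 (by linarith)
        have h5 : Real.log b + -(8883 / 10000 * S + 1943 / 2000 * S2) ≤
            (-(798 / 1000) - t - t ^ 2 / 2) - (8883 / 10000 * (2 + b - 4 * c) +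
              1943 / 2000 * (4 * b * (1 - b - c))) := by linarith
        refine le_trans h5 ?_
        rw [hbt]
        nlinarith [h4]
      have h6 : b * Real.exp (-(8883 / 10000 * S + 1943 / 2000 * S2)) =
          Real.exp (Real.log b + -(8883 / 10000 * S + 1943 / 2000 * S2)) := by
        rw [Real.exp_add, Real.exp_log hb]
      rw [h6]
      refine le_trans (Real.exp_le_exp.mpr hE) ?_
      exact hTG c (-(393612 / 100000)) (53019 / 10000) hc1 hc2 (by norm_num) (by norm_num)
        (by norm_num)
  · intro c b S S2 hc1 hc2 hb0 hb1 hS hS2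
    rcases hb0.eq_or_lt with h | hb
    · rw [← h, zero_mul]
      exact R1_BB c
    · have hc0 : 0 < c := by linarith
      have hl : Real.log b ≤ -(17 / 10) + (b / c - 1) + (100 / 17 * c - 1) := by
        have e1 : b = (b / c) * ((100 / 17 * c) * (17 / 100)) := by
          field_simp
        have h1 : 0 < b / c := div_pos hb hc0
        have h2 : 0 < 100 / 17 * c := by linarith
        have h3 : Real.log b = Real.log (b / c) + (Real.log (100 / 17 * c) +
            Real.log (17 / 100)) := by
          conv_lhs => rw [e1]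
          rw [Real.log_mul h1.ne' (by positivity), Real.log_mul h2.ne' (by norm_num)]
        rw [h3]
        have h4 := Real.log_le_sub_one_of_pos h1
        have h5 := Real.log_le_sub_one_of_pos h2
        have := R1_l2
        linarith
      obtain ⟨s, hs⟩ : ∃ s : ℝ, s = b / c := ⟨_, rfl⟩
      have hbs : b = s * c := by rw [hs]; field_simp
      rw [← hs] at hl
      have hs0 : 0 ≤ s := by rw [hs]; exact div_nonneg hb0 hc0.le
      have hs1 : s ≤ 1 := by rw [hs, div_le_one hc0]; exact hb1
      have hE : Real.log b + -(8883 / 10000 * S + 1943 / 2000 * S2) ≤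
          -(32961 / 10000) + 0 * c := by
        have h5 : Real.log b + -(8883 / 10000 * S + 1943 / 2000 * S2) ≤
            (-(17 / 10) + (s - 1) + (100 / 17 * c - 1)) - (8883 / 10000 * (1 + 2 * b) +
              1943 / 2000 * (4 * b * (1 - b - c))) := by linarith
        refine le_trans h5 ?_
        rw [hbs]
        have h7 : 0 ≤ (1 - s) * (1 - 17766 / 10000 * c - 3886 / 1000 * c * (1 - 2 * c - s * c)) := by
          refine mul_nonneg (by linarith) ?_
          nlinarith [mul_nonneg hs0 hc0.le, mul_nonneg hc0.le hc0.le,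
            mul_nonneg hc0.le (mul_nonneg hs0 hc0.le)]
        nlinarith [h7, mul_nonneg hc0.le (sub_nonneg.mpr hc2)]
      have h6 : b * Real.exp (-(8883 / 10000 * S + 1943 / 2000 * S2)) =
          Real.exp (Real.log b + -(8883 / 10000 * S + 1943 / 2000 * S2)) := by
        rw [Real.exp_add, Real.exp_log hb]
      rw [h6]
      refine le_trans (Real.exp_le_exp.mpr hE) ?_
      exact hTG c (-(32961 / 10000)) 0 hc1 hc2 (by norm_num) (by norm_num) (by norm_num)

end Pool.Agent.Work.MP_1ce445_s7
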