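import Pool.Agent.Work.MP_1ce445_s7.Interface

namespace Pool.Agent.Work.MP_1ce445_s7

open Finset Pool.Agent.Work.MP_1ce445_co_56 Pool.Agent.Work.MP_1ce445_lin

lemma R2_exp1 : Real.exp (29 / 50) ≤ 9 / 5 := by
  have h := Real.exp_bound' (x := 29 / 50) (by norm_num) (by norm_num) (n := 5) (by norm_num)
  norm_num [Finset.sum_range_succ, Nat.factorial] at h
  linarith

lemma R2_exp2 : Real.exp (79 / 100) ≤ 20 / 9 := by
  have h := Real.exp_bound' (x := 79 / 100) (by norm_num) (by norm_num) (n := 6) (by norm_num)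
  norm_num [Finset.sum_range_succ, Nat.factorial] at h
  linarith

lemma R2_base : 5 / 9 * Real.exp (4 / 5) ≤ Real.exp (11 / 50) := by
  have h1 : Real.exp (4 / 5) = Real.exp (11 / 50) * Real.exp (29 / 50) := by
    rw [← Real.exp_add]; norm_num
  rw [h1]
  have h2 := R2_exp1
  have h3 := Real.exp_pos (11 / 50)
  nlinarith

lemma R2_b (b : ℝ) : b ≤ Real.exp (20 / 9 * b - 179 / 100) := by
  have h1 : 20 / 9 * b ≤ Real.exp (20 / 9 * b - 1) := by
    have := Real.add_one_le_exp (20 / 9 * b - 1)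
    linarith
  have h2 : Real.exp (20 / 9 * b - 1) =
      Real.exp (20 / 9 * b - 179 / 100) * Real.exp (79 / 100) := by
    rw [← Real.exp_add]; ring_nf
  have h3 := R2_exp2
  have h4 := Real.exp_pos (20 / 9 * b - 179 / 100)
  rw [h2] at h1
  nlinarith

theorem stmt_R2 (hTG : Stmt_TG) : Stmt_R2 := by
  intro c b om S Sn n hc1 hc2 hb1 hb2 hom hn homn hS hSn
  have hpow : (5 / 9 * Real.exp (4 / 5)) ^ n ≤ Real.exp (n * (11 / 50)) := by
    rw [Real.exp_nat_mul]
    exact pow_le_pow_left₀ (by positivity) R2_base n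
  have key : b * (5 / 9 * Real.exp (4 / 5)) ^ n * Real.exp (-(4 / 5 * Sn + S)) ≤
      Real.exp (20 / 9 * b - 179 / 100 + n * (11 / 50) + -(4 / 5 * Sn + S)) := by
    rw [Real.exp_add, Real.exp_add]
    apply mul_le_mul_of_nonneg_right _ (Real.exp_pos _).le
    exact mul_le_mul (R2_b b) hpow (by positivity) (Real.exp_pos _).le
  refine key.trans ?_
  have hmin1 : min om (4 * c) ≤ om := min_le_left _ _
  have hmin2 : min om (4 * c) ≤ 4 * c := min_le_right _ _
  rcases Nat.lt_or_ge n 4 with h4 | h4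
  · have hn3 : n = 3 := by omega
    subst hn3
    have h1 : 20 / 9 * b - 179 / 100 + ((3 : ℕ) : ℝ) * (11 / 50) + -(4 / 5 * Sn + S) ≤
        -(366 / 100) + 3 * c := by
      push_cast at *
      linarith
    refine (Real.exp_le_exp.mpr h1).trans ?_
    exact hTG c (-(366 / 100)) 3 hc1 hc2 (by norm_num) (by norm_num) (by norm_num)
  · have hn4 : (4 : ℝ) ≤ n := by exact_mod_cast h4
    have h0 : ((n : ℝ) - 4) * (11 / 50 - 4 / 5 * (b - c)) ≤ 0 :=
      mul_nonpos_of_nonneg_of_nonpos (by linarith) (by linarith)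
    have h1 : 20 / 9 * b - 179 / 100 + (n : ℝ) * (11 / 50) + -(4 / 5 * Sn + S) ≤
        -(380 / 100) + 4 * c := by
      nlinarith [h0, hSn, hS, hmin1, hmin2]
    refine (Real.exp_le_exp.mpr h1).trans ?_
    exact hTG c (-(380 / 100)) 4 hc1 hc2 (by norm_num) (by norm_num) (by norm_num)

end Pool.Agent.Work.MP_1ce445_s7
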