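import Pool.Agent.Work.MP_1ce445_s7.Interface

/-!
# Block STA (MP_1ce445_co, theorem S7): sums around a point (helper55)
-/

namespace Pool.Agent.Work.MP_1ce445_s7

open Finset Pool.Agent.Work.MP_1ce445_co_56 Pool.Agent.Work.MP_1ce445_lin

lemma STA_pairs {V : Type} [Fintype V] {k : ℕ} (T : V → Finset (Fin k)) (S : Finset (Fin k))
    (B C : Finset V) (m : ℝ)
    (h : ∀ v ∈ B, m ≤ ((C.filter (fun w => ∃ x ∈ S, x ∈ T v ∧ x ∈ T w)).card : ℝ)) :
    (B.card : ℝ) * m ≤ ∑ x ∈ S, (((B.filter (fun v => x ∈ T v)).card : ℝ) *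
      ((C.filter (fun w => x ∈ T w)).card : ℝ)) := by
  classical
  have e1 : ∀ x ∈ S, (((B.filter (fun v => x ∈ T v)).card : ℝ) *
      ((C.filter (fun w => x ∈ T w)).card : ℝ)) =
      ∑ v ∈ B, if x ∈ T v then ((C.filter (fun w => x ∈ T w)).card : ℝ) else 0 := by
    intro x _
    rw [← Finset.sum_filter, Finset.sum_const, nsmul_eq_mul]
  rw [Finset.sum_congr rfl e1, Finset.sum_comm]
  rw [← nsmul_eq_mul, ← Finset.sum_const]
  apply Finset.sum_le_sum
  intro v hv
  refine (h v hv).trans ?_
  rw [← Finset.sum_filter]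
  have : (C.filter (fun w => ∃ x ∈ S, x ∈ T v ∧ x ∈ T w)).card ≤
      ∑ x ∈ S.filter (fun x => x ∈ T v), (C.filter (fun w => x ∈ T w)).card := by
    refine le_trans (Finset.card_le_card ?_) (Finset.card_biUnion_le)
    intro w hw
    simp only [Finset.mem_filter, Finset.mem_biUnion] at hw ⊢
    obtain ⟨hwC, x, hxS, hxv, hxw⟩ := hw
    exact ⟨x, ⟨hxS, hxv⟩, hwC, hxw⟩
  exact_mod_cast this

theorem STA_pr {V : Type} [Fintype V] {k : ℕ} (T : V → Finset (Fin k)) (j : Fin k)
    (hN : 0 < Fintype.card V) :
    pr T j * Fintype.card V = ((univ.filter (fun v => j ∈ T v)).card : ℝ) := by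
  have h : (Fintype.card V : ℝ) ≠ 0 := by exact_mod_cast hN.ne'
  unfold pr
  rw [div_mul_cancel₀ _ h]

theorem STA_five {V : Type} [Fintype V] {k : ℕ} {M : Finset (Fin k)} {T : V → Finset (Fin k)}
    (hN : 0 < Fintype.card V) (hT : ∀ v, T v ⊆ M) :
    ∑ j ∈ M, pr T j * Fintype.card V = ∑ v, ((T v).card : ℝ) := by
  classical
  have h1 : ∑ j ∈ M, (univ.filter (fun v => j ∈ T v)).card = ∑ v, (T v).card := by
    have h2 : ∀ j ∈ M, (univ.filter (fun v => j ∈ T v)).card = ∑ v, if j ∈ T v then 1 else 0 :=
      fun j _ => Finset.card_filter _ _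
    rw [Finset.sum_congr rfl h2, Finset.sum_comm]
    refine Finset.sum_congr rfl fun v _ => ?_
    rw [← Finset.card_filter]
    congr 1
    ext j
    rw [Finset.mem_filter]
    exact ⟨fun hj => hj.2, fun hj => ⟨hT v hj, hj⟩⟩
  have h3 : ∑ j ∈ M, pr T j * Fintype.card V =
      ((∑ j ∈ M, (univ.filter (fun v => j ∈ T v)).card : ℕ) : ℝ) := by
    rw [Nat.cast_sum]
    exact Finset.sum_congr rfl fun j _ => STA_pr T j hN
  rw [h3, h1, Nat.cast_sum]

/-- the sum over the other points of `M` -/
theorem STA_erase {V : Type} [Fintype V] {k : ℕ} {M : Finset (Fin k)} {T : V → Finset (Fin k)}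
    (hN : 0 < Fintype.card V) (hT : ∀ v, T v ⊆ M) (x : Fin k) :
    (∑ j ∈ M.erase x, pr T j) * Fintype.card V =
      ∑ v, ((T v).card : ℝ) - ((univ.filter (fun v => x ∈ T v)).card : ℝ) := by
  classical
  by_cases hxM : x ∈ M
  · rw [← STA_five hN hT, ← Finset.add_sum_erase M _ hxM, Finset.sum_mul, STA_pr T x hN]
    ring
  · rw [Finset.erase_eq_of_notMem hxM, ← STA_five hN hT, Finset.sum_mul]
    have h0 : univ.filter (fun v => x ∈ T v) = ∅ := by
      rw [Finset.filter_eq_empty_iff]
      intro v _ hv
      exact hxM (hT v hv)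
    rw [h0]
    simp

/-- sets which meet `T v` -/
theorem STA_low {V : Type} [Fintype V] {k : ℕ} {M : Finset (Fin k)} {T : V → Finset (Fin k)}
    {c : ℝ} (h : Kg M T c) (v : V) :
    (1 - c) * Fintype.card V ≤ ((univ.filter (fun w => ¬ T v ∩ T w = ∅)).card : ℝ) := by
  classical
  have h0 : (univ.filter (fun w => T v ∩ T w = ∅)).card +
      (univ.filter (fun w => ¬ T v ∩ T w = ∅)).card = Fintype.card V := by
    rw [Finset.card_filter_add_card_filter_not, Finset.card_univ]
  have h4 : ((univ.filter (fun w => T v ∩ T w = ∅)).card : ℝ) +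
      ((univ.filter (fun w => ¬ T v ∩ T w = ∅)).card : ℝ) = Fintype.card V := by
    exact_mod_cast h0
  have := h.few v
  linarith

lemma STA_point {k : ℕ} (x : Fin k) (S : Finset (Fin k)) (h2 : 2 ≤ S.card) :
    (2 : ℝ) + (if x ∉ S then 1 else 0) - (if S.card = 2 ∧ x ∈ S then 1 else 0) -
      (if S.card = 2 ∧ x ∉ S then 1 else 0) ≤
      (S.card : ℝ) - (if x ∈ S then 1 else 0) := by
  by_cases hx : x ∈ S
  · by_cases hs : S.card = 2
    · simp [hx, hs]
      try norm_num
    · have h3 : (3 : ℝ) ≤ S.card := by exact_mod_cast (by omega : 3 ≤ S.card)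
      simp [hx, hs]
      try linarith
  · by_cases hs : S.card = 2
    · simp [hx, hs]
    · have h3 : (3 : ℝ) ≤ S.card := by exact_mod_cast (by omega : 3 ≤ S.card)
      simp [hx, hs]
      linarith

/-- a set without `x` is large if all 2-sets contain `x` and no pair is heavy -/
lemma STA_large {V : Type} [Fintype V] {k : ℕ} {M : Finset (Fin k)} {T : V → Finset (Fin k)}
    {c : ℝ} (h : Kf M T c) (hL : Light T c) (x : Fin k) (v : V) (hv : x ∉ T v) :
    ((univ.filter (fun v => (T v).card = 2 ∧ x ∈ T v)).card : ℝ) ≤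
      (((T v).card : ℝ) + 1) * (c * Fintype.card V) := by
  classical
  have h1 : (univ.filter (fun w => (T w).card = 2 ∧ x ∈ T w)) ⊆
      (univ.filter (fun w => T v ∩ T w = ∅)) ∪
        (T v).biUnion (fun j => univ.filter (fun w => T w = {x, j})) := by
    intro w hw
    simp only [Finset.mem_filter, Finset.mem_univ, true_and] at hw
    rw [Finset.mem_union]
    by_cases hd : T v ∩ T w = ∅
    · left
      simp [hd]
    · right
      obtain ⟨j, hj⟩ := Finset.nonempty_iff_ne_empty.2 hd
      rw [Finset.mem_inter] at hj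
      have hjx : j ≠ x := by
        rintro rfl
        exact hv hj.1
      rw [Finset.mem_biUnion]
      refine ⟨j, hj.1, ?_⟩
      simp only [Finset.mem_filter, Finset.mem_univ, true_and]
      symm
      apply Finset.eq_of_subset_of_card_le
      · intro z hz
        rw [Finset.mem_insert, Finset.mem_singleton] at hz
        rcases hz with rfl | rfl
        · exact hw.2
        · exact hj.2
      · rw [hw.1, Finset.card_pair hjx.symm]
  have h2 := (Finset.card_le_card h1).trans (Finset.card_union_le _ _)
  have h3 := h2.trans (Nat.add_le_add_left Finset.card_biUnion_le _)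
  have h4 : ((univ.filter (fun w => (T w).card = 2 ∧ x ∈ T w)).card : ℝ) ≤
      ((univ.filter (fun w => T v ∩ T w = ∅)).card : ℝ) +
        ∑ j ∈ T v, ((univ.filter (fun w => T w = {x, j})).card : ℝ) := by
    exact_mod_cast h3
  have h5 : ∑ j ∈ T v, ((univ.filter (fun w => T w = {x, j})).card : ℝ) ≤
      ((T v).card : ℝ) * (c * Fintype.card V) := by
    rw [← nsmul_eq_mul]
    apply Finset.sum_le_card_nsmul
    intro j hj
    have hjx : x ≠ j := by
      rintro rfl
      exact hv hj
    exact hL x j hjx
  have h6 := h.few v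
  linarith

theorem stmt_STA : Stmt_STA := by
  classical
  intro V _ k M T c hK x om e0 hom he0
  have hNn := hK.pos
  have hN : (0 : ℝ) < Fintype.card V := by exact_mod_cast hK.pos
  set N : ℝ := (Fintype.card V : ℝ) with hNdef
  set B : Finset V := univ.filter (fun v => x ∉ T v) with hB
  set D : Finset V := univ.filter (fun v => x ∈ T v) with hD
  set A : Finset V := univ.filter (fun v => (T v).card = 2 ∧ x ∈ T v) with hA
  set C : Finset V := univ.filter (fun v => (T v).card = 2 ∧ x ∉ T v) with hC
  have hDc : (D.card : ℝ) = pr T x * N := (STA_pr T x hNn).symm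
  have hBDc : (D.card : ℝ) + B.card = N := by
    have := Finset.card_filter_add_card_filter_not (s := (univ : Finset V)) (fun v => x ∈ T v)
    rw [Finset.card_univ] at this
    rw [hNdef]
    exact_mod_cast this
  have hBc : (B.card : ℝ) = (1 - pr T x) * N := by linarith
  have hc0 : 0 < c := lt_of_lt_of_le (by norm_num) hK.cl
  have homN : om * N = A.card := by
    rw [hom, div_mul_cancel₀ _ hN.ne']
  have he0N : e0 * N = C.card := by
    rw [he0, div_mul_cancel₀ _ hN.ne']
  have e1 : (∑ j ∈ M.erase x, pr T j) * N = ∑ v, ((T v).card : ℝ) - D.card :=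
    STA_erase hNn hK.sub x
  have e2 : (D.card : ℝ) = ∑ v, (if x ∈ T v then (1 : ℝ) else 0) := by
    rw [← Finset.sum_filter, Finset.sum_const, nsmul_eq_mul, mul_one]
  have e3 : (B.card : ℝ) = ∑ v, (if x ∉ T v then (1 : ℝ) else 0) := by
    rw [← Finset.sum_filter, Finset.sum_const, nsmul_eq_mul, mul_one]
  have e4 : (A.card : ℝ) = ∑ v, (if (T v).card = 2 ∧ x ∈ T v then (1 : ℝ) else 0) := by
    rw [← Finset.sum_filter, Finset.sum_const, nsmul_eq_mul, mul_one]
  have e5 : (C.card : ℝ) = ∑ v, (if (T v).card = 2 ∧ x ∉ T v then (1 : ℝ) else 0) := by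
    rw [← Finset.sum_filter, Finset.sum_const, nsmul_eq_mul, mul_one]
  have e6 : 2 * N = ∑ _v : V, (2 : ℝ) := by
    rw [Finset.sum_const, nsmul_eq_mul, Finset.card_univ]
    ring
  refine ⟨?_, ?_, ?_, ?_⟩
  · -- first bound
    have e7 : 2 * N + B.card - A.card - C.card ≤ ∑ v, ((T v).card : ℝ) - D.card := by
      rw [e2, e3, e4, e5, e6, ← Finset.sum_add_distrib, ← Finset.sum_sub_distrib,
        ← Finset.sum_sub_distrib, ← Finset.sum_sub_distrib]
      apply Finset.sum_le_sum
      intro v _
      exact STA_point x (T v) (hK.two v)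
    have e8 : (2 + (1 - pr T x) - om - e0) * N ≤ (∑ j ∈ M.erase x, pr T j) * N := by
      rw [e1]
      nlinarith
    exact le_of_mul_le_mul_right e8 hN
  · -- second bound
    have hpairs := STA_pairs T (M.erase x) B D ((1 - c) * N - B.card) (by
      intro v hv
      have hvi : x ∉ T v := by simpa [hB] using hv
      have hsub : univ.filter (fun w => ¬ T v ∩ T w = ∅) ⊆
          D.filter (fun w => ∃ j ∈ M.erase x, j ∈ T v ∧ j ∈ T w) ∪ B := by
        intro w hw
        simp only [Finset.mem_filter, Finset.mem_univ, true_and] at hw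
        rw [Finset.mem_union]
        by_cases hwi : x ∈ T w
        · left
          obtain ⟨j, hj⟩ := Finset.nonempty_iff_ne_empty.2 hw
          rw [Finset.mem_inter] at hj
          rw [Finset.mem_filter]
          refine ⟨by simp [hD, hwi], j, ?_, hj.1, hj.2⟩
          rw [Finset.mem_erase]
          refine ⟨?_, hK.sub v hj.1⟩
          rintro rfl
          exact hvi hj.1
        · right
          simp [hB, hwi]
      have hc := (Finset.card_le_card hsub).trans (Finset.card_union_le _ _)
      have hc' : ((univ.filter (fun w => ¬ T v ∩ T w = ∅)).card : ℝ) ≤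
          ((D.filter (fun w => ∃ j ∈ M.erase x, j ∈ T v ∧ j ∈ T w)).card : ℝ) + B.card := by
        exact_mod_cast hc
      have := STA_low hK.toKg v
      linarith)
    have hsq : ∀ j ∈ M.erase x, 4 * (((B.filter (fun v => j ∈ T v)).card : ℝ) *
        ((D.filter (fun w => j ∈ T w)).card : ℝ)) ≤ pr T j ^ 2 * N ^ 2 := by
      intro j _
      have hx1 : pr T j * N = ((univ.filter (fun v => j ∈ T v)).card : ℝ) := STA_pr T j hNn
      have hx2 : ((univ.filter (fun v => j ∈ T v)).card : ℝ) =
          ((D.filter (fun v => j ∈ T v)).card : ℝ) + ((B.filter (fun v => j ∈ T v)).card : ℝ) := by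
        have := Finset.card_filter_add_card_filter_not
          (s := univ.filter (fun v => j ∈ T v)) (fun v => x ∈ T v)
        rw [Finset.filter_comm, Finset.filter_comm (fun v => j ∈ T v) (fun v => x ∉ T v)] at this
        exact_mod_cast this.symm
      rw [← mul_pow, hx1, hx2]
      nlinarith [sq_nonneg (((D.filter (fun v => j ∈ T v)).card : ℝ) -
        ((B.filter (fun v => j ∈ T v)).card : ℝ))]
    have hsum := Finset.sum_le_sum hsq
    rw [← Finset.mul_sum, ← Finset.sum_mul] at hsum
    have hN2 : 0 < N ^ 2 := by positivity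
    have e7 : (4 * (1 - pr T x) * (pr T x - c)) * N ^ 2 ≤
        (∑ j ∈ M.erase x, pr T j ^ 2) * N ^ 2 := by
      refine le_trans ?_ hsum
      refine le_trans (le_of_eq ?_) (mul_le_mul_of_nonneg_left hpairs (by norm_num : (0:ℝ) ≤ 4))
      rw [hBc]
      ring
    exact le_of_mul_le_mul_right e7 hN2
  · -- third bound
    intro he hL
    have hC0 : C = ∅ := by
      have h1 : (C.card : ℝ) = 0 := by rw [← he0N, he, zero_mul]
      have h2 : C.card = 0 := by exact_mod_cast h1
      exact Finset.card_eq_zero.1 h2
    have hpt : ∀ v, (2 : ℝ) * (if x ∈ T v then 1 else 0) -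
        (if (T v).card = 2 ∧ x ∈ T v then 1 else 0) + (if x ∉ T v then 1 else 0) * (om / c - 1) ≤
        ((T v).card : ℝ) - (if x ∈ T v then 1 else 0) := by
      intro v
      by_cases hx : x ∈ T v
      · by_cases hs : (T v).card = 2
        · simp [hx, hs]
          try norm_num
        · have h3 : (3 : ℝ) ≤ (T v).card := by
            have := hK.two v
            exact_mod_cast (by omega : 3 ≤ (T v).card)
          simp [hx, hs]
          try linarith
      · have h3 := STA_large hK hL x v hx
        rw [← hA, ← homN, ← hNdef] at h3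
        have h4 : om * N ≤ ((((T v).card : ℝ) + 1) * c) * N := by
          calc om * N ≤ _ := h3
            _ = _ := by ring
        have h5 : om ≤ (((T v).card : ℝ) + 1) * c := le_of_mul_le_mul_right h4 hN
        have h6 : om / c ≤ ((T v).card : ℝ) + 1 := by
          rw [div_le_iff₀ hc0]
          exact h5
        simp [hx]
        linarith
    have hsum := Finset.sum_le_sum (fun v (_ : v ∈ (univ : Finset V)) => hpt v)
    rw [Finset.sum_sub_distrib, Finset.sum_add_distrib, Finset.sum_sub_distrib, ← Finset.mul_sum,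
      ← Finset.sum_mul, ← e2, ← e3, ← e4] at hsum
    have e8 : (2 * pr T x - om + (1 - pr T x) * (om / c - 1)) * N ≤
        (∑ j ∈ M.erase x, pr T j) * N := by
      rw [e1]
      refine le_trans (le_of_eq ?_) hsum
      rw [hDc, hBc, ← homN]
      ring
    exact le_of_mul_le_mul_right e8 hN
  · -- fourth bound
    rintro j ⟨hxj, v, hv⟩
    have g1 : ((univ.filter (fun w => x ∉ T w ∧ j ∉ T w)).card : ℝ) ≤ c * N := by
      refine le_trans ?_ (hK.few v)
      have : (univ.filter (fun w => x ∉ T w ∧ j ∉ T w)).card ≤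
          (univ.filter (fun w => T v ∩ T w = ∅)).card := by
        apply Finset.card_le_card
        intro w hw
        simp only [Finset.mem_filter, Finset.mem_univ, true_and] at hw ⊢
        rw [hv]
        ext z
        simp only [Finset.mem_inter, Finset.mem_insert, Finset.mem_singleton,
          Finset.notMem_empty, iff_false, not_and]
        rintro (rfl | rfl)
        · exact hw.1
        · exact hw.2
      exact_mod_cast this
    have g2 : ((univ.filter (fun w => x ∉ T w ∧ j ∉ T w)).card : ℝ) +
        ((univ.filter (fun w => x ∉ T w ∧ j ∈ T w)).card : ℝ) = B.card := by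
      have := Finset.card_filter_add_card_filter_not (s := B) (fun v => j ∉ T v)
      rw [hB, Finset.filter_filter, Finset.filter_filter] at this
      simp only [not_not] at this
      rw [hB]
      exact_mod_cast this
    have g3 : ((univ.filter (fun w => x ∉ T w ∧ j ∈ T w)).card : ℝ) +
        ((univ.filter (fun w => T w = {x, j})).card : ℝ) ≤
        ((univ.filter (fun w => j ∈ T w)).card : ℝ) := by
      have hdis : Disjoint (univ.filter (fun w => x ∉ T w ∧ j ∈ T w))
          (univ.filter (fun w => T w = {x, j})) := by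
        rw [Finset.disjoint_left]
        intro w hw hw2
        simp only [Finset.mem_filter, Finset.mem_univ, true_and] at hw hw2
        apply hw.1
        rw [hw2]
        simp
      have : (univ.filter (fun w => x ∉ T w ∧ j ∈ T w)).card +
          (univ.filter (fun w => T w = {x, j})).card ≤
          (univ.filter (fun w => j ∈ T w)).card := by
        rw [← Finset.card_union_of_disjoint hdis]
        apply Finset.card_le_card
        intro w hw
        rw [Finset.mem_union] at hw
        simp only [Finset.mem_filter, Finset.mem_univ, true_and] at hw ⊢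
        rcases hw with hw | hw
        · exact hw.2
        · rw [hw]
          simp
      exact_mod_cast this
    have g4 : (nx T x j : ℝ) / N * N = ((univ.filter (fun w => T w = {x, j})).card : ℝ) := by
      rw [div_mul_cancel₀ _ hN.ne']
      rfl
    have e8 : ((nx T x j : ℝ) / N + (1 - pr T x) - c) * N ≤ pr T j * N := by
      rw [STA_pr T j hNn]
      have e9 : ((nx T x j : ℝ) / N + (1 - pr T x) - c) * N =
          (nx T x j : ℝ) / N * N + (1 - pr T x) * N - c * N := by ring
      rw [e9, g4, ← hBc]
      linarith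
    exact le_of_mul_le_mul_right e8 hN

end Pool.Agent.Work.MP_1ce445_s7
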