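import Pool.Agent.Work.MP_1ce445_s7.Interface

/-! Block TA. -/

namespace Pool.Agent.Work.MP_1ce445_s7

open Finset Pool.Agent.Work.MP_1ce445_co_56 Pool.Agent.Work.MP_1ce445_lin

theorem TA_poly (p : ℝ) (h0 : 0 ≤ p) :
    8883 / 10000 * p + 1943 / 2000 * p ^ 2 ≤
      p + p ^ 2 / 2 + p ^ 3 / 3 + p ^ 4 / 4 + p ^ 5 / 5 + p ^ 6 / 6 + p ^ 7 / 7 + p ^ 8 / 8 := by
  have h7 : 0 ≤ p * (p - 2 / 5) ^ 2 *
      (1 / 3 + (p + 2 * (2 / 5)) / 4 + (p ^ 2 + 2 * (2 / 5) * p + 3 * (2 / 5) ^ 2) / 5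
        + (p ^ 3 + 2 * (2 / 5) * p ^ 2 + 3 * (2 / 5) ^ 2 * p + 4 * (2 / 5) ^ 3) / 6
        + (p ^ 4 + 2 * (2 / 5) * p ^ 3 + 3 * (2 / 5) ^ 2 * p ^ 2 + 4 * (2 / 5) ^ 3 * p
            + 5 * (2 / 5) ^ 4) / 7
        + (p ^ 5 + 2 * (2 / 5) * p ^ 4 + 3 * (2 / 5) ^ 2 * p ^ 3 + 4 * (2 / 5) ^ 3 * p ^ 2
            + 5 * (2 / 5) ^ 4 * p + 6 * (2 / 5) ^ 5) / 8) := by
    positivity
  nlinarith [h7, h0, mul_nonneg h0 h0]

theorem stmt_TA : Stmt_TA := by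
  intro p h0 h1
  rcases eq_or_lt_of_le h1 with rfl | h
  · simp only [sub_self]
    exact (Real.exp_pos _).le
  · have h2 : |p| < 1 := by rw [abs_of_nonneg h0]; exact h
    have h3 := Real.hasSum_pow_div_log_of_abs_lt_one h2
    have h4 := sum_le_hasSum (range 8) (fun i _ => by positivity) h3
    simp only [sum_range_succ, sum_range_zero] at h4
    norm_num at h4
    have h7 := TA_poly p h0
    have h5 : Real.log (1 - p) ≤ -(8883 / 10000 * p + 1943 / 2000 * p ^ 2) := by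
      linarith
    have h6 : 0 < 1 - p := by linarith
    calc 1 - p = Real.exp (Real.log (1 - p)) := (Real.exp_log h6).symm
      _ ≤ _ := Real.exp_le_exp.2 h5

end Pool.Agent.Work.MP_1ce445_s7
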