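import Pool.Agent.Work.MP_1ce445_s7.Interface

/-! # Theorem S7, block THL: a closed triangle with two heavy pairs (typed by helper73) -/

namespace Pool.Agent.Work.MP_1ce445_s7

open Finset Pool.Agent.Work.MP_1ce445_co_56 Pool.Agent.Work.MP_1ce445_lin

theorem THL_heavy {V : Type} [Fintype V] {k : ℕ} {M : Finset (Fin k)} {T : V → Finset (Fin k)}
    {c : ℝ} (h : Kg M T c) (a b : Fin k) (hab : c * Fintype.card V < nx T a b) (v : V) :
    a ∈ T v ∨ b ∈ T v := by
  classical
  by_contra hcon
  push Not at hcon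
  have hsub : univ.filter (fun w => T w = {a, b}) ⊆ univ.filter (fun w => T v ∩ T w = ∅) := by
    intro w hw
    rw [Finset.mem_filter] at hw ⊢
    refine ⟨Finset.mem_univ _, ?_⟩
    rw [hw.2, Finset.eq_empty_iff_forall_notMem]
    intro j hj
    rw [Finset.mem_inter, Finset.mem_insert, Finset.mem_singleton] at hj
    rcases hj.2 with rfl | rfl
    · exact hcon.1 hj.1
    · exact hcon.2 hj.1
  have h4 : (nx T a b : ℝ) ≤ ((univ.filter (fun w => T v ∩ T w = ∅)).card : ℝ) := by
    unfold nx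
    exact_mod_cast Finset.card_le_card hsub
  have h5 := h.few v
  linarith

theorem THL_miss {V : Type} [Fintype V] {k : ℕ} {M : Finset (Fin k)} {T : V → Finset (Fin k)}
    {c : ℝ} (h : Kg M T c) (a b : Fin k) (hab : R T a b) :
    ∑ v, (if a ∉ T v ∧ b ∉ T v then (1 : ℝ) else 0) ≤ c * Fintype.card V := by
  classical
  obtain ⟨_, w, hw⟩ := hab
  rw [Finset.sum_boole]
  refine le_trans ?_ (h.few w)
  have hsub : univ.filter (fun v => a ∉ T v ∧ b ∉ T v) ⊆ univ.filter (fun v => T w ∩ T v = ∅) := by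
    intro v hv
    rw [Finset.mem_filter] at hv ⊢
    refine ⟨Finset.mem_univ _, ?_⟩
    rw [hw, Finset.eq_empty_iff_forall_notMem]
    intro j hj
    rw [Finset.mem_inter, Finset.mem_insert, Finset.mem_singleton] at hj
    rcases hj.1 with rfl | rfl
    · exact hv.2.1 hj.2
    · exact hv.2.2 hj.2
  exact_mod_cast Finset.card_le_card hsub

theorem THL_nx {V : Type} [Fintype V] {k : ℕ} (T : V → Finset (Fin k)) (a b : Fin k) :
    ∑ v, (if T v = {a, b} then (1 : ℝ) else 0) = nx T a b := by
  rw [Finset.sum_boole]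
  rfl

theorem THL_num : (29 / 10 : ℝ) ≤ Real.log (17 / 5) + 2 * Real.log (12 / 5) := by
  have h1 : Real.exp (29 / 10) ≤ 17 / 5 * (12 / 5) ^ 2 := by
    have h2 : Real.exp (29 / 10) ^ 10 = Real.exp 1 ^ 29 := by
      rw [← Real.exp_nat_mul, ← Real.exp_nat_mul]
      norm_num
    have h3 : Real.exp (29 / 10) ^ 10 ≤ (17 / 5 * (12 / 5) ^ 2 : ℝ) ^ 10 := by
      rw [h2]
      have h4 := Real.exp_one_lt_d9
      calc Real.exp 1 ^ 29 ≤ (2.7182818286 : ℝ) ^ 29 :=
            pow_le_pow_left₀ (Real.exp_pos 1).le h4.le 29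
        _ ≤ _ := by norm_num
    exact le_of_pow_le_pow_left₀ (by norm_num) (by norm_num) h3
  have h5 : Real.log (17 / 5) + 2 * Real.log (12 / 5) = Real.log (17 / 5 * (12 / 5) ^ 2) := by
    rw [Real.log_mul (by norm_num) (by norm_num), Real.log_pow]
    norm_num
  rw [h5, Real.le_log_iff_exp_le (by norm_num)]
  exact h1

theorem THL_pt {k : ℕ} (S : Finset (Fin k)) (x1 x2 x3 : Fin k) (h12 : x1 ≠ x2) (h13 : x1 ≠ x3)
    (h23 : x2 ≠ x3) (h2 : 2 ≤ S.card) (hS : S.card = 2 → S ⊆ {x1, x2, x3})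
    (ha : x1 ∈ S ∨ x2 ∈ S) (hb : x1 ∈ S ∨ x3 ∈ S) :
    (29 / 5 : ℝ) ≤ (S.card : ℝ) + ((if x1 ∈ S then 12 / 5 else 0) + (if x2 ∈ S then 7 / 5 else 0) +
      (if x3 ∈ S then 7 / 5 else 0)) +
      (2 / 5 * (if x2 ∉ S ∧ x3 ∉ S then 1 else 0) + (if S = {x2, x3} then 1 else 0)) := by
  classical
  have hE : (0 : ℝ) ≤ (if S = {x2, x3} then 1 else 0) := by split_ifs <;> norm_num
  set E : ℝ := (if S = {x2, x3} then 1 else 0) with hEdef
  by_cases hc : S.card = 2
  · have hcr : (S.card : ℝ) = 2 := by exact_mod_cast hc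
    have hsub := hS hc
    by_cases h1 : x1 ∈ S
    · -- another point of S
      have hex : x2 ∈ S ∨ x3 ∈ S := by
        by_contra hcon
        push Not at hcon
        have : S ⊆ {x1} := by
          intro j hj
          have := hsub hj
          simp only [Finset.mem_insert, Finset.mem_singleton] at this
          rcases this with rfl | rfl | rfl
          · simp
          · exact absurd hj hcon.1
          · exact absurd hj hcon.2
        have := Finset.card_le_card this
        simp at this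
        omega
      rw [if_pos h1, hcr]
      rcases hex with h | h
      · rw [if_pos h]
        have e3 : (0 : ℝ) ≤ (if x3 ∈ S then 7 / 5 else 0) := by split_ifs <;> norm_num
        have e4 : (0 : ℝ) ≤ (if x2 ∉ S ∧ x3 ∉ S then 1 else 0) := by split_ifs <;> norm_num
        linarith
      · rw [if_pos h]
        have e3 : (0 : ℝ) ≤ (if x2 ∈ S then 7 / 5 else 0) := by split_ifs <;> norm_num
        have e4 : (0 : ℝ) ≤ (if x2 ∉ S ∧ x3 ∉ S then 1 else 0) := by split_ifs <;> norm_num
        linarith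
    · have h2' := ha.resolve_left h1
      have h3' := hb.resolve_left h1
      have hSe : S = {x2, x3} := by
        symm
        apply Finset.eq_of_subset_of_card_le
        · intro j hj
          simp only [Finset.mem_insert, Finset.mem_singleton] at hj
          rcases hj with rfl | rfl
          · exact h2'
          · exact h3'
        · rw [hc, Finset.card_pair h23]
      have hE1 : E = 1 := by rw [hEdef, if_pos hSe]
      rw [if_neg h1, if_pos h2', if_pos h3', hcr, hE1]
      have e4 : (0 : ℝ) ≤ (if x2 ∉ S ∧ x3 ∉ S then 1 else 0) := by split_ifs <;> norm_num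
      linarith
  · have hcr : (3 : ℝ) ≤ (S.card : ℝ) := by
      have : 3 ≤ S.card := by omega
      exact_mod_cast this
    by_cases h1 : x1 ∈ S
    · by_cases h2' : x2 ∈ S
      · rw [if_pos h1, if_pos h2']
        have e3 : (0 : ℝ) ≤ (if x3 ∈ S then 7 / 5 else 0) := by split_ifs <;> norm_num
        have e4 : (0 : ℝ) ≤ (if x2 ∉ S ∧ x3 ∉ S then 1 else 0) := by split_ifs <;> norm_num
        linarith
      · by_cases h3' : x3 ∈ S
        · rw [if_pos h1, if_neg h2', if_pos h3']
          have e4 : (0 : ℝ) ≤ (if x2 ∉ S ∧ x3 ∉ S then 1 else 0) := by split_ifs <;> norm_num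
          linarith
        · rw [if_pos h1, if_neg h2', if_neg h3', if_pos ⟨h2', h3'⟩]
          linarith
    · have h2' := ha.resolve_left h1
      have h3' := hb.resolve_left h1
      rw [if_neg h1, if_pos h2', if_pos h3']
      have e4 : (0 : ℝ) ≤ (if x2 ∉ S ∧ x3 ∉ S then 1 else 0) := by split_ifs <;> norm_num
      linarith

/-- Block THL. -/
theorem stmt_THL (h1 : Stmt_TG) (h2 : Stmt_LPC) : Stmt_THL := by
  intro V _ k M T c hK x1 x2 x3 h12 h13 hv12 hv13 hR hnx hsub
  classical
  have hN : (0 : ℝ) < Fintype.card V := by exact_mod_cast hK.pos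
  have h23 : x2 ≠ x3 := hR.1
  have hp : Function.Injective (![x1, x2, x3] : Fin 3 → Fin k) := by
    intro i j hij
    fin_cases i <;> fin_cases j <;>
      simp_all [Matrix.cons_val_zero, Matrix.cons_val_one]
  have hmain := h2 M T hK.pos hK.sub 3 ![x1, x2, x3] ![17 / 5, 12 / 5, 12 / 5]
    (fun v => 2 / 5 * (if x2 ∉ T v ∧ x3 ∉ T v then 1 else 0) + (if T v = {x2, x3} then 1 else 0))
    (29 / 5) hp (by
      intro i
      fin_cases i <;> norm_num [Matrix.cons_val_zero, Matrix.cons_val_one]) (by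
      intro v
      have h3 := THL_pt (T v) x1 x2 x3 h12 h13 h23 (hK.two v) (hsub v)
        (THL_heavy hK.toKg x1 x2 hv12 v) (THL_heavy hK.toKg x1 x3 hv13 v)
      rw [Fin.sum_univ_three]
      simp only [Matrix.cons_val_zero, Matrix.cons_val_one, Matrix.cons_val]
      norm_num at h3 ⊢
      exact h3)
  unfold Bd
  refine hmain.trans ?_
  have h4 : (∑ v, (2 / 5 * (if x2 ∉ T v ∧ x3 ∉ T v then (1 : ℝ) else 0) +
      (if T v = {x2, x3} then 1 else 0))) / Fintype.card V ≤ 7 / 5 * c := by
    rw [div_le_iff₀ hN, Finset.sum_add_distrib, ← Finset.mul_sum, THL_nx]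
    have h5 := THL_miss hK.toKg x2 x3 hR
    linarith
  have h6 : 0 ≤ ∑ x ∈ M.filter (fun x => ∀ i, x ≠ (![x1, x2, x3] : Fin 3 → Fin k) i),
      pr T x ^ 2 := Finset.sum_nonneg fun x _ => sq_nonneg _
  have h7 := THL_num
  have h8 := h1 c (-(7 / 2)) (7 / 5) hK.cl hK.cu (by norm_num) (by norm_num) (by norm_num)
  refine le_trans (Real.exp_le_exp.2 ?_) h8
  rw [Fin.sum_univ_three]
  simp only [Matrix.cons_val_zero, Matrix.cons_val_one, Matrix.cons_val]
  linarith

end Pool.Agent.Work.MP_1ce445_s7
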