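import Pool.Agent.Work.MP_1ce445_s7.Interface

/-! # Theorem S7, block THR: few 2-sets (typed by helper73, after the file of helper99 in MP_1ce445_k4) -/

namespace Pool.Agent.Work.MP_1ce445_s7

open Finset Pool.Agent.Work.MP_1ce445_co_56 Pool.Agent.Work.MP_1ce445_lin

theorem THR_pr {V : Type} [Fintype V] {k : ℕ} (T : V → Finset (Fin k)) (j : Fin k)
    (hN : 0 < Fintype.card V) :
    pr T j * Fintype.card V = ((univ.filter (fun v => j ∈ T v)).card : ℝ) := by
  have h : (Fintype.card V : ℝ) ≠ 0 := by exact_mod_cast hN.ne'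
  unfold pr
  rw [div_mul_cancel₀ _ h]

theorem THR_sum {V : Type} [Fintype V] {k : ℕ} (M : Finset (Fin k)) (T : V → Finset (Fin k))
    (hT : ∀ v, T v ⊆ M) (hN : (0 : ℝ) < Fintype.card V) :
    ∑ v, ∑ j ∈ T v, pr T j = (∑ j ∈ M, pr T j ^ 2) * Fintype.card V := by
  have h1 : ∀ v, ∑ j ∈ T v, pr T j = ∑ j ∈ M, if j ∈ T v then pr T j else 0 := by
    intro v
    rw [← Finset.sum_filter]
    congr 1
    ext j
    simp only [Finset.mem_filter]
    exact ⟨fun h => ⟨hT v h, h⟩, fun h => h.2⟩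
  simp_rw [h1]
  rw [Finset.sum_comm, Finset.sum_mul]
  refine Finset.sum_congr rfl fun j _ => ?_
  rw [← Finset.sum_filter, Finset.sum_const, nsmul_eq_mul]
  have h2 : ((univ.filter (fun v => j ∈ T v)).card : ℝ) = pr T j * Fintype.card V := by
    unfold pr
    field_simp
  rw [h2]
  ring

theorem THR_five {V : Type} [Fintype V] {k : ℕ} {M : Finset (Fin k)} {T : V → Finset (Fin k)}
    (hN : 0 < Fintype.card V) (hT : ∀ v, T v ⊆ M) :
    ∑ j ∈ M, pr T j * Fintype.card V = ∑ v, ((T v).card : ℝ) := by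
  classical
  have h1 : ∑ j ∈ M, (univ.filter (fun v => j ∈ T v)).card = ∑ v, (T v).card := by
    have h2 : ∀ j ∈ M, (univ.filter (fun v => j ∈ T v)).card = ∑ v, if j ∈ T v then 1 else 0 :=
      fun j _ => Finset.card_filter _ _
    rw [Finset.sum_congr rfl h2, Finset.sum_comm]
    refine Finset.sum_congr rfl fun v _ => ?_
    rw [← Finset.card_filter]
    congr 1
    ext j
    rw [Finset.mem_filter]
    exact ⟨fun hj => hj.2, fun hj => ⟨hT v hj, hj⟩⟩
  have h3 : ∑ j ∈ M, pr T j * Fintype.card V =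
      ((∑ j ∈ M, (univ.filter (fun v => j ∈ T v)).card : ℕ) : ℝ) := by
    rw [Nat.cast_sum]
    exact Finset.sum_congr rfl fun j _ => THR_pr T j hN
  rw [h3, h1, Nat.cast_sum]

theorem THR_four {V : Type} [Fintype V] {k : ℕ} {M : Finset (Fin k)} {T : V → Finset (Fin k)}
    {c : ℝ} (h : Kg M T c) (v : V) : 1 - c ≤ ∑ j ∈ T v, pr T j := by
  classical
  have hN : (0 : ℝ) < Fintype.card V := by exact_mod_cast h.pos
  have h0 : (univ.filter (fun w => T v ∩ T w = ∅)).card +
      (univ.filter (fun w => ¬ T v ∩ T w = ∅)).card = Fintype.card V := by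
    rw [Finset.card_filter_add_card_filter_not, Finset.card_univ]
  have h1 : (univ.filter (fun w => ¬ T v ∩ T w = ∅)) ⊆
      (T v).biUnion (fun j => univ.filter (fun w => j ∈ T w)) := by
    intro w hw
    have h2 := (Finset.mem_filter.1 hw).2
    obtain ⟨j, hj⟩ := Finset.nonempty_iff_ne_empty.2 h2
    rw [Finset.mem_inter] at hj
    rw [Finset.mem_biUnion]
    exact ⟨j, hj.1, Finset.mem_filter.2 ⟨Finset.mem_univ w, hj.2⟩⟩
  have h2 : (univ.filter (fun w => ¬ T v ∩ T w = ∅)).card ≤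
      ∑ j ∈ T v, (univ.filter (fun w => j ∈ T w)).card :=
    (Finset.card_le_card h1).trans Finset.card_biUnion_le
  have h3 : ((univ.filter (fun w => ¬ T v ∩ T w = ∅)).card : ℝ) ≤
      ∑ j ∈ T v, ((univ.filter (fun w => j ∈ T w)).card : ℝ) := by exact_mod_cast h2
  have h4 : ((univ.filter (fun w => T v ∩ T w = ∅)).card : ℝ) +
      ((univ.filter (fun w => ¬ T v ∩ T w = ∅)).card : ℝ) = Fintype.card V := by
    exact_mod_cast h0
  have h5 : ∑ j ∈ T v, ((univ.filter (fun w => j ∈ T w)).card : ℝ) =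
      (∑ j ∈ T v, pr T j) * Fintype.card V := by
    rw [Finset.sum_mul]
    exact Finset.sum_congr rfl fun j _ => (THR_pr T j h.pos).symm
  have h6 := h.few v
  rw [h5] at h3
  have h7 : (1 - c) * (Fintype.card V : ℝ) ≤ (∑ j ∈ T v, pr T j) * Fintype.card V := by
    linarith
  exact le_of_mul_le_mul_right h7 hN

theorem THR_pr01 {V : Type} [Fintype V] {k : ℕ} (T : V → Finset (Fin k)) (j : Fin k)
    (hN : 0 < Fintype.card V) : 0 ≤ pr T j ∧ pr T j ≤ 1 := by
  have hN' : (0 : ℝ) < Fintype.card V := by exact_mod_cast hN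
  constructor
  · unfold pr
    positivity
  · have h2 : (univ.filter (fun v => j ∈ T v)).card ≤ Fintype.card V := by
      rw [← Finset.card_univ]
      exact Finset.card_le_card (Finset.filter_subset _ _)
    have h3 : ((univ.filter (fun v => j ∈ T v)).card : ℝ) ≤ Fintype.card V := by
      exact_mod_cast h2
    unfold pr
    rw [div_le_one hN']
    exact h3

/-- Block THR. -/
theorem stmt_THR (h1 : Pool.Agent.Work.MP_1ce445_k4.Stmt_TNG) (h2 : Stmt_TG) : Stmt_THR := by
  intro V _ k M T c hK htwo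
  have hN : (0 : ℝ) < Fintype.card V := by exact_mod_cast hK.pos
  have b1 := fun j => THR_pr01 T j hK.pos
  have hcard : ∀ v, (3 : ℝ) - (if (T v).card = 2 then 1 else 0) ≤ ((T v).card : ℝ) := by
    intro v
    have h4 := hK.two v
    split_ifs with h5
    · rw [h5]
      norm_num
    · have h6 : 3 ≤ (T v).card := by omega
      have h7 : ((3 : ℕ) : ℝ) ≤ ((T v).card : ℝ) := by exact_mod_cast h6
      push_cast at h7
      linarith
  have hs1 : 3 - 2 * c ≤ ∑ j ∈ M, pr T j := by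
    have h4 : (∑ j ∈ M, pr T j) * Fintype.card V = ∑ v, ((T v).card : ℝ) := by
      rw [Finset.sum_mul]
      exact THR_five hK.pos hK.sub
    have h5 : ∑ v : V, ((3 : ℝ) - (if (T v).card = 2 then 1 else 0)) ≤ ∑ v, ((T v).card : ℝ) :=
      Finset.sum_le_sum fun v _ => hcard v
    rw [Finset.sum_sub_distrib, Finset.sum_const, nsmul_eq_mul, ← h4, Finset.card_univ,
      Finset.sum_boole] at h5
    have h5' : ((univ.filter (fun v => (T v).card = 2)).card : ℝ) ≤ 2 * c * Fintype.card V := htwo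
    have h6 : (3 - 2 * c) * (Fintype.card V : ℝ) ≤ (∑ j ∈ M, pr T j) * Fintype.card V := by
      linarith
    exact le_of_mul_le_mul_right h6 hN
  have hs2 : 1 - c ≤ ∑ j ∈ M, pr T j ^ 2 := by
    have h5 : ∑ _v : V, (1 - c) ≤ ∑ v, ∑ j ∈ T v, pr T j :=
      Finset.sum_le_sum fun v _ => THR_four hK.toKg v
    rw [Finset.sum_const, nsmul_eq_mul, THR_sum M T hK.sub hN, Finset.card_univ] at h5
    have h6 : (1 - c) * (Fintype.card V : ℝ) ≤ (∑ j ∈ M, pr T j ^ 2) * Fintype.card V := by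
      linarith
    exact le_of_mul_le_mul_right h6 hN
  have h7 : ∏ x ∈ M, (1 - pr T x) ≤
      ∏ x ∈ M, Real.exp (-(23791 / 25000 * pr T x + 7891 / 10000 * pr T x ^ 2)) :=
    Finset.prod_le_prod (fun x _ => by linarith [(b1 x).2])
      fun x _ => h1 (pr T x) (b1 x).1 (b1 x).2
  unfold Bd
  refine h7.trans ?_
  rw [← Real.exp_sum, Finset.sum_neg_distrib, Finset.sum_add_distrib, ← Finset.mul_sum,
    ← Finset.mul_sum]
  have h8 : Real.exp (-(23791 / 25000 * ∑ j ∈ M, pr T j + 7891 / 10000 * ∑ j ∈ M, pr T j ^ 2)) ≤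
      Real.exp (-(182201 / 50000) + 134619 / 50000 * c) := Real.exp_le_exp.2 (by linarith)
  exact h8.trans (h2 c _ _ hK.cl hK.cu (by norm_num) (by norm_num) (by norm_num))

end Pool.Agent.Work.MP_1ce445_s7
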