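import Pool.Agent.Work.MP_1ce445_s7.Interface

/-!
Block UPS of THEOREM S7: the upper bound, from CORE and ALG (model: `MP_1ce445_k4/UPK.lean`).
-/

namespace Pool.Agent.Work.MP_1ce445_s7

open Finset Pool.Agent.Work.MP_1ce445_co_56 Pool.Agent.Work.MP_1ce445_lin

lemma UPS_small {f : ℝ → ℝ} (hf : Continuous f) {c : ℝ} (h : f 0 < c) :
    ∃ δ : ℝ, 0 < δ ∧ ∀ x, 0 ≤ x → x ≤ δ → f x < c := by
  have h1 : {x | f x < c} ∈ nhds (0 : ℝ) := (isOpen_lt hf continuous_const).mem_nhds h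
  obtain ⟨δ, hδ, hb⟩ := Metric.mem_nhds_iff.1 h1
  refine ⟨δ / 2, by positivity, fun x h0 hx => ?_⟩
  have h2 : x ∈ Metric.ball (0 : ℝ) δ := by
    rw [Metric.mem_ball, Real.dist_eq, sub_zero, abs_of_nonneg h0]
    linarith
  exact hb h2

lemma UPS_NN (n : ℕ) (hn : 2 ≤ n) : (n : ℝ) ≤ (1 + 2 / n) * NN n := by
  have h1 : n ≤ NN n + 1 := by
    unfold NN
    omega
  have h2 : (n : ℝ) - 1 ≤ NN n := by
    have : (n : ℝ) ≤ NN n + 1 := by exact_mod_cast h1
    linarith
  have hn' : (2 : ℝ) ≤ n := by exact_mod_cast hn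
  have hn0 : (0 : ℝ) < n := by linarith
  have h3 : (1 + 2 / (n : ℝ)) * ((n : ℝ) - 1) = n + (n - 2) / n := by
    field_simp
    ring
  have h4 : 0 ≤ ((n : ℝ) - 2) / n := div_nonneg (by linarith) hn0.le
  calc (n : ℝ) ≤ (1 + 2 / (n : ℝ)) * ((n : ℝ) - 1) := by rw [h3]; linarith
    _ ≤ (1 + 2 / n) * NN n := mul_le_mul_of_nonneg_left h2 (by positivity)

lemma UPS_card {α : Type} (s : Finset α) (P : α → Prop) [DecidablePred P] :
    ((univ : Finset s).filter (fun v => P v.1)).card = (s.filter P).card := by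
  rw [← Finset.card_map (Function.Embedding.subtype _)]
  congr 1
  ext x
  simp only [mem_map, mem_filter, mem_univ, true_and, Function.Embedding.coe_subtype]
  constructor
  · rintro ⟨v, hv, rfl⟩
    exact ⟨v.2, hv⟩
  · rintro ⟨hx, hP⟩
    exact ⟨⟨x, hx⟩, hP, rfl⟩

lemma UPS_prod {ι : Type} (M : Finset ι) (x y : ι → ℝ) (h0 : ∀ j, 0 ≤ x j) (h1 : ∀ j, x j ≤ y j)
    (h2 : ∀ j, y j ≤ 1) : ∏ j ∈ M, y j ≤ ∏ j ∈ M, x j + ∑ j ∈ M, (y j - x j) := by
  classical
  induction M using Finset.induction_on with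
  | empty => simp
  | insert a M ha ih =>
    rw [prod_insert ha, prod_insert ha, sum_insert ha]
    have hX0 : 0 ≤ ∏ j ∈ M, x j := prod_nonneg fun j _ => h0 j
    have hX1 : ∏ j ∈ M, x j ≤ 1 := prod_le_one (fun j _ => h0 j) fun j _ => (h1 j).trans (h2 j)
    have hS0 : 0 ≤ ∑ j ∈ M, (y j - x j) := sum_nonneg fun j _ => sub_nonneg.2 (h1 j)
    have hy0 : 0 ≤ y a := (h0 a).trans (h1 a)
    have e1 : y a * ∏ j ∈ M, y j ≤ y a * (∏ j ∈ M, x j + ∑ j ∈ M, (y j - x j)) :=
      mul_le_mul_of_nonneg_left ih hy0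
    have e2 : y a * ∑ j ∈ M, (y j - x j) ≤ 1 * ∑ j ∈ M, (y j - x j) := mul_le_mul_of_nonneg_right (h2 a) hS0
    have e3 : (y a - x a) * ∏ j ∈ M, x j ≤ (y a - x a) * 1 :=
      mul_le_mul_of_nonneg_left hX1 (sub_nonneg.2 (h1 a))
    linarith

lemma UPS_bd {ι : Type} [DecidableEq ι] (M : Finset ι) (p q : ι → ℝ) (s t B : ℝ) (hs0 : 0 ≤ s) (hs1 : s ≤ 1) (ht : 0 ≤ t)
    (hq0 : ∀ j, 0 ≤ q j) (hq1 : ∀ j, q j ≤ 1) (hpq : ∀ j, (1 - s) * q j ≤ p j) (hp1 : ∀ j, p j ≤ 1)
    (hB : ∏ j ∈ M, (1 - q j) ≤ B) (hst : 5 * s + t * M.card ≤ 1) :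
    ∏ j ∈ M, (1 - p j + t) ≤ max (Real.exp (-4)) (B + 5 * s + ((1 + t) ^ M.card - 1)) := by
  by_cases h5 : 5 ≤ ∑ j ∈ M, q j
  · refine le_trans ?_ (le_max_left _ _)
    have e1 : ∏ j ∈ M, (1 - p j + t) ≤ ∏ j ∈ M, Real.exp (-p j + t) := by
      apply prod_le_prod
      · intro j _
        have := hp1 j
        linarith
      · intro j _
        have := Real.add_one_le_exp (-p j + t)
        linarith
    rw [← Real.exp_sum] at e1
    refine e1.trans (Real.exp_le_exp.2 ?_)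
    rw [sum_add_distrib, sum_neg_distrib, sum_const, nsmul_eq_mul]
    have e2 : (1 - s) * ∑ j ∈ M, q j ≤ ∑ j ∈ M, p j := by
      rw [mul_sum]
      exact sum_le_sum fun j _ => hpq j
    have e3 : (1 - s) * 5 ≤ (1 - s) * ∑ j ∈ M, q j := mul_le_mul_of_nonneg_left h5 (by linarith)
    linarith
  · push Not at h5
    refine le_trans ?_ (le_max_right _ _)
    have e1 : ∏ j ∈ M, (1 - p j + t) ≤ ∏ j ∈ M, (1 - q j + s * q j + t) := by
      apply prod_le_prod
      · intro j _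
        have := hp1 j
        linarith
      · intro j _
        have := hpq j
        linarith
    have hsq : ∀ j, s * q j ≤ q j := fun j => mul_le_of_le_one_left (hq0 j) hs1
    have hsq0 : ∀ j, 0 ≤ s * q j := fun j => mul_nonneg hs0 (hq0 j)
    have e2 := prod_add_le M (fun j => 1 - q j + s * q j) ht (fun j => by
      have := hq1 j
      have := hsq0 j
      linarith) (fun j => by
      have := hsq j
      linarith)
    have e3 := UPS_prod M (fun j => 1 - q j) (fun j => 1 - q j + s * q j) (fun j => by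
      have := hq1 j
      linarith) (fun j => by
      have := hsq0 j
      linarith) (fun j => by
      have := hsq j
      linarith)
    have e4 : ∑ j ∈ M, ((1 - q j + s * q j) - (1 - q j)) = s * ∑ j ∈ M, q j := by
      rw [mul_sum]
      exact sum_congr rfl fun j _ => by ring
    have e5 : s * ∑ j ∈ M, q j ≤ s * 5 := mul_le_mul_of_nonneg_left h5.le hs0
    linarith

lemma UPS_exp : Real.exp (-4) ≤ 1 / 27 := by
  have h1 : (2.7 : ℝ) ≤ Real.exp 1 := by
    have := Real.exp_one_gt_d9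
    norm_num at this ⊢
    linarith
  have h2 : Real.exp 4 = Real.exp 1 ^ 4 := by
    rw [← Real.exp_nat_mul]
    norm_num
  have h3 : (27 : ℝ) ≤ Real.exp 4 := by
    rw [h2]
    have h4 := pow_le_pow_left₀ (by norm_num) h1 4
    norm_num at h4 ⊢
    linarith
  rw [Real.exp_neg, inv_eq_one_div]
  exact one_div_le_one_div_of_le (by norm_num) h3

lemma UPS_few (n k : ℕ) (T : Fin n → Finset (Fin k)) (Vg : Finset (Fin n)) (s : ℝ) (v : Fin n)
    (hlo : (n : ℝ) - 1 - k - s * n ≤ ((univ.filter (fun w => T v ∩ T w ≠ ∅)).card : ℝ)) :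
    (((univ : Finset Vg).filter (fun w => T v ∩ T w.1 = ∅)).card : ℝ) ≤ 1 + k + s * n := by
  rw [UPS_card Vg (fun w => T v ∩ T w = ∅)]
  have h1 : (Vg.filter (fun w => T v ∩ T w = ∅)).card ≤ (univ.filter (fun w => T v ∩ T w = ∅)).card :=
    card_le_card (filter_subset_filter _ (subset_univ _))
  have h2 : (univ.filter (fun w => T v ∩ T w = ∅)).card + (univ.filter (fun w => T v ∩ T w ≠ ∅)).card = n := by
    have h := Finset.card_filter_add_card_filter_not (s := (univ : Finset (Fin n))) (fun w => T v ∩ T w = ∅)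
    rwa [card_univ, Fintype.card_fin] at h
  have h1' : ((Vg.filter (fun w => T v ∩ T w = ∅)).card : ℝ) ≤ (univ.filter (fun w => T v ∩ T w = ∅)).card := by
    exact_mod_cast h1
  have h2' : ((univ.filter (fun w => T v ∩ T w = ∅)).card : ℝ) + (univ.filter (fun w => T v ∩ T w ≠ ∅)).card = n := by
    exact_mod_cast h2
  linarith

lemma UPS_one (c : ℝ) (h0 : 0 ≤ c) (h1 : c ≤ 301 / 2500) : BB c ≤ 1 / 27 := by
  unfold BB
  refine max_le le_rfl (max_le ?_ ?_)
  · have h2 : (1 + 2 * c) ^ 4 ≤ (1 + 2 * (301 / 2500)) ^ 4 :=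
      pow_le_pow_left₀ (by linarith) (by linarith) 4
    have h3 : ((1 : ℝ) + 2 * (301 / 2500)) ^ 4 ≤ 64 / 27 := by norm_num
    linarith
  · have h2 : ((1 + 6 * c) / 4) ^ 4 ≤ ((1 + 6 * (301 / 2500)) / 4) ^ 4 :=
      pow_le_pow_left₀ (by linarith) (by linarith) 4
    have h3 : (((1 : ℝ) + 6 * (301 / 2500)) / 4) ^ 4 ≤ 1 / 27 := by norm_num
    linarith

lemma UPS_pow (u v : ℝ) (hu : 0 ≤ u) (huv : u ≤ v) (hv : v ≤ 3 / 2) : v ^ 4 ≤ u ^ 4 + 27 / 2 * (v - u) := by
  have h1 : v ^ 4 - u ^ 4 = (v - u) * (v ^ 3 + v ^ 2 * u + v * u ^ 2 + u ^ 3) := by ring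
  have hv0 : 0 ≤ v := hu.trans huv
  have hu3 : u ≤ 3 / 2 := huv.trans hv
  have e1 : v ^ 3 ≤ (3 / 2) ^ 3 := pow_le_pow_left₀ hv0 hv 3
  have e2 : v ^ 2 * u ≤ (3 / 2) ^ 2 * (3 / 2) :=
    mul_le_mul (pow_le_pow_left₀ hv0 hv 2) hu3 hu (by norm_num)
  have e3 : v * u ^ 2 ≤ (3 / 2) * (3 / 2) ^ 2 :=
    mul_le_mul hv (pow_le_pow_left₀ hu hu3 2) (by positivity) (by norm_num)
  have e4 : u ^ 3 ≤ (3 / 2) ^ 3 := pow_le_pow_left₀ hu hu3 3
  have e5 : (v - u) * (v ^ 3 + v ^ 2 * u + v * u ^ 2 + u ^ 3) ≤ (v - u) * (27 / 2) := by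
    apply mul_le_mul_of_nonneg_left _ (by linarith)
    norm_num at e1 e2 e3 e4
    linarith
  linarith

lemma UPS_mono (c s : ℝ) (h0 : 0 ≤ c) (hs : 0 ≤ s) (h1 : c + 3 * s ≤ 17 / 100) :
    BB (c + 3 * s) ≤ BB c + 72 * s := by
  have hb1 : 1 / 27 ≤ BB c := le_max_left _ _
  have hb2 : (1 + 2 * c) ^ 4 / 64 ≤ BB c := (le_max_left _ _).trans (le_max_right _ _)
  have hb3 : ((1 + 6 * c) / 4) ^ 4 ≤ BB c := (le_max_right _ _).trans (le_max_right _ _)
  have h2 : BB (c + 3 * s) = max (1 / 27) (max ((1 + 2 * (c + 3 * s)) ^ 4 / 64) (((1 + 6 * (c + 3 * s)) / 4) ^ 4)) := rfl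
  rw [h2]
  refine max_le (by linarith) (max_le ?_ ?_)
  · have h3 := UPS_pow (1 + 2 * c) (1 + 2 * (c + 3 * s)) (by linarith) (by linarith) (by linarith)
    linarith
  · have h3 := UPS_pow ((1 + 6 * c) / 4) ((1 + 6 * (c + 3 * s)) / 4) (by linarith) (by linarith) (by linarith)
    linarith

lemma UPS_le_one (c : ℝ) (h0 : 0 ≤ c) (h1 : c ≤ 17 / 100) : BB c ≤ 1 := by
  unfold BB
  refine max_le (by norm_num) (max_le ?_ ?_)
  · have h2 : (1 + 2 * c) ^ 4 ≤ 2 ^ 4 := pow_le_pow_left₀ (by linarith) (by linarith) 4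
    norm_num at h2
    linarith
  · exact pow_le_one₀ (by linarith) (by linarith)

theorem stmt_UPS (h1 : Pool.Agent.Work.MP_1ce445_lin.Stmt_CORE) (h2 : Stmt_ALG) : Stmt_UPS := by
  intro ε hε
  -- the constants
  obtain ⟨s, hs0, hs10, hs72⟩ : ∃ s : ℝ, 0 < s ∧ s ≤ 1 / 20000 ∧ 72 * s ≤ ε / 8 :=
    ⟨min (1 / 20000) (ε / 576), by positivity, min_le_left _ _, by
      have := min_le_right (1 / 20000) (ε / 576)
      linarith⟩
  have hsε : 5 * s ≤ ε / 8 := by linarith
  have hs1 : s ≤ 1 := by linarith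
  set τ : ℝ := s ^ 2 / 30 with hτ
  have hτ0 : 0 < τ := by positivity
  have hτs : τ ≤ s := by
    rw [hτ]
    nlinarith
  have hτ1 : τ ≤ 1 := hτs.trans hs1
  obtain ⟨K, hK⟩ := exists_nat_ge (5 / τ)
  obtain ⟨e1, he0, he4, he5⟩ : ∃ e1 : ℝ, 0 < e1 ∧ e1 ≤ ε / 8 ∧ e1 ≤ 1 / 4 :=
    ⟨min (ε / 8) (1 / 4), by positivity, min_le_left _ _, min_le_right _ _⟩
  obtain ⟨t, ht0, hft, htK⟩ : ∃ t : ℝ, 0 < t ∧ (∀ x, 0 ≤ x → x ≤ t → (1 + x) ^ K < 1 + e1) ∧ t * K ≤ 1 / 2 := by
    obtain ⟨t, ht0, hft⟩ := UPS_small (f := fun t : ℝ => (1 + t) ^ K) (by fun_prop)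
      (c := 1 + e1) (by
        simp only [add_zero, one_pow]
        linarith)
    refine ⟨min t (1 / (2 * ((K : ℝ) + 1))), by positivity, fun x hx hxt => hft x hx (hxt.trans (min_le_left _ _)), ?_⟩
    have hK0 : (0 : ℝ) ≤ K := Nat.cast_nonneg _
    calc min t (1 / (2 * ((K : ℝ) + 1))) * K ≤ 1 / (2 * ((K : ℝ) + 1)) * ((K : ℝ) + 1) := by
          apply mul_le_mul (min_le_right _ _) (by linarith) hK0 (by positivity)
      _ = 1 / 2 := by
          field_simp
  obtain ⟨R, hR⟩ : ∃ R : ℕ, (1 - τ ^ 2) ^ R < t / 2 := by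
    apply exists_pow_lt_of_lt_one (by positivity)
    have : 0 < τ ^ 2 := by positivity
    linarith
  obtain ⟨N1, hN1⟩ := exists_nat_gt (2 * R / t)
  obtain ⟨N2, hN2⟩ := exists_nat_gt (1 / τ)
  obtain ⟨N3, hN3⟩ := exists_nat_gt (2 / t)
  refine ⟨N1 + N2 + N3 + 2, fun n k hn hku => ?_⟩
  have hnR : ((N1 : ℝ) + N2 + N3 + 2) ≤ n := by exact_mod_cast hn
  have hN1' : (0 : ℝ) ≤ N1 := Nat.cast_nonneg _
  have hN2' : (0 : ℝ) ≤ N2 := Nat.cast_nonneg _
  have hN3' : (0 : ℝ) ≤ N3 := Nat.cast_nonneg _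
  have hnpos : (0 : ℝ) < n := by linarith
  have hn2 : 2 ≤ n := by omega
  have hn0 : 0 < n := by omega
  have hτn : 1 ≤ τ * n := by
    have h5 : 1 / τ < n := by linarith
    rw [div_lt_iff₀ hτ0] at h5
    linarith
  have hRn : (R : ℝ) / n ≤ t / 2 := by
    have h5 : 2 * R / t < n := by linarith
    rw [div_lt_iff₀ ht0] at h5
    rw [div_le_iff₀ hnpos]
    linarith
  have hwt : 2 / (n : ℝ) ≤ t := by
    have h5 : 2 / t < n := by linarith
    rw [div_lt_iff₀ ht0] at h5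
    rw [div_le_iff₀ hnpos]
    linarith
  have hw0 : 0 ≤ 2 / (n : ℝ) := by positivity
  have hsn : 1 ≤ s * n := hτn.trans (mul_le_mul_of_nonneg_right hτs hnpos.le)
  have hkn : k ≤ n := by
    have : (k : ℝ) ≤ n := by linarith
    exact_mod_cast this
  rcases P_attained n k with h0 | ⟨G, hG, hP⟩
  · rw [h0]
    simp only [Nat.cast_zero]
    have h5 : 1 / 27 ≤ BB ((k : ℝ) / n) := le_max_left _ _
    exact mul_nonneg (by linarith) (by positivity)
  rw [hP]
  push_cast
  have hNN0 : (0 : ℝ) ≤ (NN n : ℝ) ^ k := by positivity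
  -- the bound
  set x : ℝ := (k : ℝ) / n with hx
  have hx0 : 0 ≤ x := by positivity
  have hx6 : x ≤ 1 / 6 := by
    rw [hx, div_le_iff₀ hnpos]
    linarith
  have hx17 : x ≤ 17 / 100 := by linarith
  set m : ℝ := BB x with hm
  have hm27 : 1 / 27 ≤ m := le_max_left _ _
  have hm0 : 0 ≤ m := le_trans (by norm_num) hm27
  have hm1 : m ≤ 1 := UPS_le_one x hx0 hx17
  have hmε : 0 ≤ m + ε := by linarith
  set c' : ℝ := max (301 / 2500) (x + 3 * s) with hc'
  have hc0 : 0 ≤ c' := le_trans (by norm_num) (le_max_left _ _)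
  have hcm : BB c' ≤ m + ε / 8 := by
    rcases max_choice (301 / 2500) (x + 3 * s) with h5 | h5
    · rw [hc', h5]
      have := UPS_one (301 / 2500) (by norm_num) le_rfl
      linarith
    · rw [hc', h5]
      have := UPS_mono x s hx0 hs0.le (by linarith)
      linarith
  rcases h1 n k R G s t hG hs0 hs1 hτn hkn (by linarith) with h5 | ⟨M, T, Vg, hM, hT, hVg, hlo, hγ, hγN⟩
  · refine h5.trans ?_
    apply mul_le_mul_of_nonneg_right _ hNN0
    have := UPS_exp
    linarith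
  · have hMK : M.card ≤ K := by
      have h5 : (M.card : ℝ) ≤ K := hM.trans hK
      exact_mod_cast h5
    have hMKR : (M.card : ℝ) ≤ K := by exact_mod_cast hMK
    have hVpos : (0 : ℝ) < Vg.card := by
      have : 0 < (1 - s) * n := mul_pos (by linarith) hnpos
      linarith
    have hkx : (k : ℝ) = x * n := by
      rw [hx, div_mul_cancel₀ _ hnpos.ne']
    have hall := h2 (V := Vg) M (fun v => T v.1) c' {
      pos := by
        rw [Fintype.card_coe]
        exact_mod_cast hVpos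
      sub := fun v => hT v.1
      cl := le_max_left _ _
      cu := max_le (by norm_num) (by linarith)
      few := by
        intro v
        have h5 := UPS_few n k T Vg s v.1 (hlo v.1 v.2)
        refine h5.trans ?_
        rw [Fintype.card_coe]
        have h6 : c' * ((1 - s) * n) ≤ c' * Vg.card := mul_le_mul_of_nonneg_left hVg hc0
        have h7 : (x + 3 * s) * ((1 - s) * n) ≤ c' * ((1 - s) * n) :=
          mul_le_mul_of_nonneg_right (le_max_right _ _) (mul_nonneg (by linarith) hnpos.le)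
        have h8 : (x + 3 * s) * (1 - s) * n = x * n + s * n + (2 - x - 3 * s) * (s * n) := by ring
        have h9 : 1 * (s * n) ≤ (2 - x - 3 * s) * (s * n) :=
          mul_le_mul_of_nonneg_right (by linarith) (by positivity)
        have h10 : (x + 3 * s) * ((1 - s) * n) = (x + 3 * s) * (1 - s) * n := by ring
        linarith }
    have hallB : ∏ j ∈ M, (1 - pr (V := Vg) (fun v => T v.1) j) ≤ m + ε / 8 := hall.trans hcm
    set q : Fin k → ℝ := fun j => pr (V := Vg) (fun v => T v.1) j with hq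
    have hq' : ∀ j, q j = ((Vg.filter (fun v => j ∈ T v)).card : ℝ) / Vg.card := by
      intro j
      show pr (V := Vg) (fun v => T v.1) j = _
      unfold pr
      rw [UPS_card Vg (fun v => j ∈ T v), Fintype.card_coe]
    have hq0 : ∀ j, 0 ≤ q j := fun j => by
      rw [hq']
      exact div_nonneg (Nat.cast_nonneg _) (Nat.cast_nonneg _)
    have hq1 : ∀ j, q j ≤ 1 := fun j => by
      rw [hq', div_le_one hVpos]
      have h5 : (Vg.filter (fun v => j ∈ T v)).card ≤ Vg.card := card_filter_le _ _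
      exact_mod_cast h5
    set p : Fin k → ℝ := fun j => ((univ.filter (fun v => j ∈ T v)).card : ℝ) / n with hp
    have hp1 : ∀ j, p j ≤ 1 := fun j => by
      simp only [hp]
      rw [div_le_one hnpos]
      have h5 : (univ.filter (fun v => j ∈ T v)).card ≤ n := by
        have h6 := card_filter_le (univ : Finset (Fin n)) (fun v => j ∈ T v)
        simpa using h6
      exact_mod_cast h5
    have hpq : ∀ j, (1 - s) * q j ≤ p j := by
      intro j
      simp only [hp]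
      rw [le_div_iff₀ hnpos]
      have h5 : (Vg.filter (fun v => j ∈ T v)).card ≤ (univ.filter (fun v => j ∈ T v)).card :=
        card_le_card (filter_subset_filter _ (subset_univ _))
      have h5' : ((Vg.filter (fun v => j ∈ T v)).card : ℝ) ≤ (univ.filter (fun v => j ∈ T v)).card := by
        exact_mod_cast h5
      have h6 : q j * Vg.card = ((Vg.filter (fun v => j ∈ T v)).card : ℝ) := by
        rw [hq', div_mul_cancel₀ _ hVpos.ne']
      have h7 : q j * ((1 - s) * n) ≤ q j * Vg.card := mul_le_mul_of_nonneg_left hVg (hq0 j)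
      linarith
    have htM : t * M.card ≤ t * K := mul_le_mul_of_nonneg_left hMKR ht0.le
    have hbd := UPS_bd M p q s t (m + ε / 8) hs0.le hs1 ht0.le hq0 hq1 hpq hp1 hallB (by linarith)
    have hpow : ∀ x : ℝ, 0 ≤ x → x ≤ t → (1 + x) ^ M.card ≤ 1 + e1 := by
      intro x hx hxt
      have h5 : (1 + x) ^ M.card ≤ (1 + x) ^ K := pow_le_pow_right₀ (by linarith) hMK
      have h6 : (1 + x) ^ K < 1 + e1 := hft x hx hxt
      linarith
    have hadd : ∏ j ∈ M, (1 - p j + t) ≤ m + ε / 2 := by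
      refine hbd.trans (max_le ?_ ?_)
      · have := UPS_exp
        linarith
      · have h5 := hpow t ht0.le le_rfl
        linarith
    have hin : ∏ j ∈ M, (gammaT (G j) : ℝ) ≤ (m + ε / 2) * ((1 + e1) * (NN n : ℝ) ^ M.card) := by
      calc ∏ j ∈ M, (gammaT (G j) : ℝ) ≤ ∏ j ∈ M, ((1 - p j + t) * n) := by
            apply prod_le_prod
            · intro j _
              exact Nat.cast_nonneg _
            · intro j hj
              exact hγ j hj
        _ = (∏ j ∈ M, (1 - p j + t)) * (n : ℝ) ^ M.card := by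
            rw [prod_mul_distrib, prod_const]
        _ ≤ (m + ε / 2) * (n : ℝ) ^ M.card :=
            mul_le_mul_of_nonneg_right hadd (by positivity)
        _ ≤ (m + ε / 2) * ((1 + e1) * (NN n : ℝ) ^ M.card) := by
            apply mul_le_mul_of_nonneg_left _ (by linarith)
            calc (n : ℝ) ^ M.card ≤ ((1 + 2 / n) * NN n) ^ M.card :=
                  pow_le_pow_left₀ hnpos.le (UPS_NN n hn2) _
              _ = (1 + 2 / (n : ℝ)) ^ M.card * (NN n : ℝ) ^ M.card := mul_pow _ _ _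
              _ ≤ (1 + e1) * (NN n : ℝ) ^ M.card :=
                  mul_le_mul_of_nonneg_right (hpow _ hw0 hwt) (by positivity)
    have hout : ∏ j ∈ Mᶜ, (gammaT (G j) : ℝ) ≤ (NN n : ℝ) ^ (Mᶜ).card := by
      rw [← prod_const]
      apply prod_le_prod
      · intro j _
        exact Nat.cast_nonneg _
      · intro j _
        exact_mod_cast hγN j
    have hcard : M.card + (Mᶜ).card = k := by
      have h5 := card_add_card_compl M
      rw [Fintype.card_fin] at h5
      exact h5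
    have hfin : (m + ε / 2) * (1 + e1) ≤ m + ε := by
      have h6 : ε * e1 ≤ ε * (1 / 4) := mul_le_mul_of_nonneg_left he5 hε.le
      have h7 : m * e1 ≤ 1 * e1 := mul_le_mul_of_nonneg_right hm1 he0.le
      linarith
    calc (∏ j, (gammaT (G j) : ℝ))
        = (∏ j ∈ M, (gammaT (G j) : ℝ)) * ∏ j ∈ Mᶜ, (gammaT (G j) : ℝ) :=
          (prod_mul_prod_compl M _).symm
      _ ≤ ((m + ε / 2) * ((1 + e1) * (NN n : ℝ) ^ M.card)) * (NN n : ℝ) ^ (Mᶜ).card := by
          apply mul_le_mul hin hout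
          · exact prod_nonneg fun j _ => Nat.cast_nonneg _
          · positivity
      _ = ((m + ε / 2) * (1 + e1)) * (NN n : ℝ) ^ (M.card + (Mᶜ).card) := by
          rw [pow_add]
          ring
      _ = ((m + ε / 2) * (1 + e1)) * (NN n : ℝ) ^ k := by rw [hcard]
      _ ≤ (m + ε) * (NN n : ℝ) ^ k := mul_le_mul_of_nonneg_right hfin (by positivity)

end Pool.Agent.Work.MP_1ce445_s7
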