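import Pool.Agent.Work.MP_1ce445_k4.TNG
import Pool.Agent.Work.MP_1ce445_lin.CORE
import Pool.Agent.Work.MP_1ce445_s7.ALG
import Pool.Agent.Work.MP_1ce445_s7.ALT
import Pool.Agent.Work.MP_1ce445_s7.C4
import Pool.Agent.Work.MP_1ce445_s7.C4S
import Pool.Agent.Work.MP_1ce445_s7.C5
import Pool.Agent.Work.MP_1ce445_s7.CB
import Pool.Agent.Work.MP_1ce445_s7.CIA
import Pool.Agent.Work.MP_1ce445_s7.CKA
import Pool.Agent.Work.MP_1ce445_s7.CL7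
import Pool.Agent.Work.MP_1ce445_s7.D11
import Pool.Agent.Work.MP_1ce445_s7.D21
import Pool.Agent.Work.MP_1ce445_s7.D22
import Pool.Agent.Work.MP_1ce445_s7.DBL
import Pool.Agent.Work.MP_1ce445_s7.DW
import Pool.Agent.Work.MP_1ce445_s7.HCA
import Pool.Agent.Work.MP_1ce445_s7.HV
import Pool.Agent.Work.MP_1ce445_s7.HVR
import Pool.Agent.Work.MP_1ce445_s7.K4
import Pool.Agent.Work.MP_1ce445_s7.LPC
import Pool.Agent.Work.MP_1ce445_s7.M3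
import Pool.Agent.Work.MP_1ce445_s7.ONE
import Pool.Agent.Work.MP_1ce445_s7.PH
import Pool.Agent.Work.MP_1ce445_s7.PWH
import Pool.Agent.Work.MP_1ce445_s7.PWL
import Pool.Agent.Work.MP_1ce445_s7.PWS
import Pool.Agent.Work.MP_1ce445_s7.R1
import Pool.Agent.Work.MP_1ce445_s7.R2
import Pool.Agent.Work.MP_1ce445_s7.STA
import Pool.Agent.Work.MP_1ce445_s7.STL
import Pool.Agent.Work.MP_1ce445_s7.TA
import Pool.Agent.Work.MP_1ce445_s7.TE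
import Pool.Agent.Work.MP_1ce445_s7.TG
import Pool.Agent.Work.MP_1ce445_s7.THH
import Pool.Agent.Work.MP_1ce445_s7.THL
import Pool.Agent.Work.MP_1ce445_s7.THR
import Pool.Agent.Work.MP_1ce445_s7.TLL
import Pool.Agent.Work.MP_1ce445_s7.UPS

/-!
The blocks together.
-/

namespace Pool.Agent.Work.MP_1ce445_s7

open Finset Pool.Agent.Work.MP_1ce445_co_56 Pool.Agent.Work.MP_1ce445_lin

theorem hC4  : Stmt_C4 :=
  stmt_C4 stmt_PH stmt_K4 (stmt_CKA stmt_TG stmt_LPC stmt_C4S) (stmt_CIA stmt_TG stmt_LPC stmt_C4S)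
    (stmt_CB stmt_TG stmt_LPC)

theorem hTHR : Stmt_THR := stmt_THR Pool.Agent.Work.MP_1ce445_k4.stmt_TNG stmt_TG

theorem hALT  : Stmt_ALT :=
  stmt_ALT hTHR (stmt_STL stmt_TA stmt_STA (stmt_R1 stmt_TG) (stmt_R2 stmt_TG)) (stmt_M3 stmt_TG stmt_LPC)
    hC4 (stmt_TE stmt_TG stmt_LPC) (stmt_TLL stmt_TG stmt_LPC) (stmt_PWL stmt_TG stmt_LPC)
    (stmt_PWS stmt_TA stmt_STA (stmt_R1 stmt_TG)) (stmt_C5 stmt_TG stmt_LPC)
    (stmt_DBL hTHR hC4 (stmt_D11 stmt_TG stmt_LPC) (stmt_D21 stmt_TG stmt_LPC)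
      (stmt_D22 stmt_TG stmt_LPC) (stmt_DW stmt_TG stmt_LPC)) stmt_CL7
    (stmt_HCA hC4 (stmt_THL stmt_TG stmt_LPC) stmt_THH (stmt_PWH stmt_TG stmt_LPC) (stmt_HV stmt_TA (stmt_HVR stmt_TG)))

theorem hALG  : Stmt_ALG := stmt_ALG hALT (stmt_ONE stmt_TG stmt_TA)

theorem hUPS  : Stmt_UPS := stmt_UPS Pool.Agent.Work.MP_1ce445_lin.stmt_CORE hALG

end Pool.Agent.Work.MP_1ce445_s7
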