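import Pool.Agent.Work.MP_1ce445_k4.Interface

/-!
THEOREM S7 for MP_1ce445_co: `P n k ≤ (BB (k/n) + o(1)) (NN n)^k` for all `k ≤ n/6`,
`BB c = max (1/27) (max ((1 + 2c)⁴/64) (((1 + 6c)/4)⁴))`. This is sharp for `k ≤ n/7`. Definitions and statements of the
blocks, with complete proofs in the docstrings (all numbers checked by program).

One file `Pool/Agent/Work/MP_1ce445_s7/<ID>.lean` per block, `import Pool.Agent.Work.MP_1ce445_s7.Interface`,
same `open` lines, theorem `stmt_<ID>` with exactly the statements of the column `uses` as hypotheses, in this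
order; auxiliary lemmas with the name of the block in front (`THR_aux`). Models: the files of `MP_1ce445_k4` and
`MP_1ce445_sm` (their lemmas may be copied; `Kg`, `Kf` there have other ranges of `c`).

`p_x = pr T x` is the fraction of the `v` with `x ∈ T v`; `N = |V|`. A pair `a, b` is present if `R T a b`; then at most
`c N` sets contain neither `a` nor `b` (`few`). It is heavy if `c N < nx T a b`; then EVERY `T w` contains `a` or `b`
(otherwise `few` is violated for `w`). Mass of a family = number of its members divided by `N`.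
-/

namespace Pool.Agent.Work.MP_1ce445_s7

open Finset Pool.Agent.Work.MP_1ce445_co_56 Pool.Agent.Work.MP_1ce445_lin

/-- The hypotheses on the set system without the condition on the size. -/
structure Kg {V : Type} [Fintype V] {k : ℕ} (M : Finset (Fin k)) (T : V → Finset (Fin k))
    (c : ℝ) : Prop where
  pos : 0 < Fintype.card V
  sub : ∀ v, T v ⊆ M
  cl : 301 / 2500 ≤ c
  cu : c ≤ 17 / 100
  few : ∀ v, ((univ.filter (fun w => T v ∩ T w = ∅)).card : ℝ) ≤ c * Fintype.card V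

/-- The hypotheses on the set system: all sets have at least two elements. -/
structure Kf {V : Type} [Fintype V] {k : ℕ} (M : Finset (Fin k)) (T : V → Finset (Fin k))
    (c : ℝ) : Prop extends Kg M T c where
  two : ∀ v, 2 ≤ (T v).card

/-- number of the `v` with `T v = {a, b}` -/
def nx {V : Type} [Fintype V] {k : ℕ} (T : V → Finset (Fin k)) (a b : Fin k) : ℕ :=
  (univ.filter (fun v => T v = {a, b})).card

/-- the pair `a, b` is present -/
def R {V : Type} {k : ℕ} (T : V → Finset (Fin k)) (a b : Fin k) : Prop :=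
  a ≠ b ∧ ∃ v, T v = {a, b}

/-- number of the sets with two elements -/
def n2 {V : Type} [Fintype V] {k : ℕ} (T : V → Finset (Fin k)) : ℕ :=
  (univ.filter (fun v => (T v).card = 2)).card

/-- no heavy pair -/
def Light {V : Type} [Fintype V] {k : ℕ} (T : V → Finset (Fin k)) (c : ℝ) : Prop :=
  ∀ a b : Fin k, a ≠ b → (nx T a b : ℝ) ≤ c * Fintype.card V

/-- the bound -/
noncomputable def BB (c : ℝ) : ℝ := max (1 / 27) (max ((1 + 2 * c) ^ 4 / 64) (((1 + 6 * c) / 4) ^ 4))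

/-- the bound for the product -/
def Bd {V : Type} [Fintype V] {k : ℕ} (M : Finset (Fin k)) (T : V → Finset (Fin k)) (c : ℝ) :
    Prop :=
  ∏ x ∈ M, (1 - pr T x) ≤ BB c

/-! ### Tools -/

/-- TG (120 lines), the target. If `c ≤ 653/5000 = 0.1306`: `a + m c` is linear in `c`, so it is at most the line `g` through
`(0.1204, -3.2961)` and `(0.1306, -3.2329)`, and `4 log (1 + 2c) - log 64` is concave and lies above `g` at both ends
(`-3.29586`, `-3.23062`), so `exp (a + m c) ≤ (1 + 2c)⁴/64`. If `c ≥ 0.1306`: `a + m c ≤ -3.2329 + (59/5)(c - 0.1306)`, and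
`4 log ((1 + 6c)/4)` is concave and lies above this line at `0.1306` (`-3.23064`) and at `0.17` (`-2.73279` and
`-2.76798`). -/
def Stmt_TG : Prop :=
  ∀ c a m : ℝ, 301 / 2500 ≤ c → c ≤ 17 / 100 → m ≤ 59 / 5 → a + 301 / 2500 * m ≤ -32961 / 10000 →
    a + 653 / 5000 * m ≤ -32329 / 10000 → Real.exp (a + m * c) ≤ BB c

/-- TA (80 lines), as TNG of `MP_1ce445_k4`, with `a = 2/5` and eight terms: `log (1 - p) ≤ -∑_{i=1}^8 p^i/i`, and
`F p = ∑_{i=1}^8 p^{i-1}/i` is convex on `[0, 1]`, `F (2/5) = 1.276950`, `F' (2/5) = 0.971561`, so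
`F p ≥ 0.888325 + 0.971561 p ≥ 0.8883 + 0.9715 p`. (Or: `-log (1 - p)/p` is convex.) `p = 1` is clear. -/
def Stmt_TA : Prop :=
  ∀ p : ℝ, 0 ≤ p → p ≤ 1 → 1 - p ≤ Real.exp (-(8883 / 10000 * p + 1943 / 2000 * p ^ 2))

/-- LPC (150 lines), model `MP_1ce445_k4/LPC.lean`, `CER.lean`: `m` named points `p i` with weights `l i ≥ 1`. Named `x = p i` in
`M`: `l (1 - p_x) ≤ exp (l (1 - p_x) - 1)`, so `1 - p_x ≤ exp (l - 1 - log l - l p_x)`; other `x ∈ M`:
`1 - p_x ≤ exp (-p_x - p_x²/2)`. (A named point outside `M` has `pr = 0`, and `l - 1 - log l ≥ 0`.)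
`N (∑_{x ∈ M} p_x + ∑_i (l i - 1) p_{p i}) = ∑_v (|T v| + ∑_i [p i ∈ T v] (l i - 1)) ≥ K N - ∑_v ph v`. -/
def Stmt_LPC : Prop :=
  ∀ {V : Type} [Fintype V] {k : ℕ} (M : Finset (Fin k)) (T : V → Finset (Fin k)),
    0 < Fintype.card V → (∀ v, T v ⊆ M) → ∀ (m : ℕ) (p : Fin m → Fin k) (l : Fin m → ℝ)
      (ph : V → ℝ) (K : ℝ), Function.Injective p → (∀ i, 1 ≤ l i) →
    (∀ v, K ≤ ((T v).card : ℝ) + (∑ i, if p i ∈ T v then l i - 1 else 0) + ph v) →
    ∏ x ∈ M, (1 - pr T x) ≤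
      Real.exp (∑ i, (l i - 1 - Real.log (l i)) - K + (∑ v, ph v) / Fintype.card V -
        (∑ x ∈ M.filter (fun x => ∀ i, x ≠ p i), pr T x ^ 2) / 2)

/-- THR (100 lines; uses TNG (of `MP_1ce445_k4`) TG; model `MP_1ce445_k4/THR.lean`): few 2-sets. `∑ p_x ≥ 3 - 2c`,
`∑ p_x² ≥ 1 - c`: the product is at most `exp (-(0.95164 (3 - 2c) + 0.7891 (1 - c))) = exp (-3.64402 + 2.69238 c)`. -/
def Stmt_THR : Prop :=
  ∀ {V : Type} [Fintype V] {k : ℕ} (M : Finset (Fin k)) (T : V → Finset (Fin k)) (c : ℝ),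
    Kf M T c → (n2 T : ℝ) ≤ 2 * c * Fintype.card V → Bd M T c

/-! ### Patterns. In each of them: LPC with the given named points and weights, `ph v` = the sum of the multipliers `mu`
of the present pairs which `T v` misses (both points not in `T v`), of the multipliers `nu` of the pairs with `T v = ` pair
(for pairs with `nx ≤ c N`), and the further terms given; `K` = the minimum over all possible `T v` (2-sets: the present
pairs; otherwise `|T v| ≥ 3`); then TG. -/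

/-- M3 (80 lines; uses TG LPC): three disjoint present pairs. `l = 9/5` on the six points, `mu = 9/5` on the three pairs, `K = 27/5`
(each of the three pairs is met or missed). Exponent `6 (4/5 - log (9/5)) - 27/5 + 27/5 c = -4.12672 + 5.4 c`. -/
def Stmt_M3 : Prop :=
  ∀ {V : Type} [Fintype V] {k : ℕ} (M : Finset (Fin k)) (T : V → Finset (Fin k)) (c : ℝ),
    Kf M T c → ∀ a1 b1 a2 b2 a3 b3 : Fin k, [a1, b1, a2, b2, a3, b3].Nodup → R T a1 b1 →
    R T a2 b2 → R T a3 b3 → Bd M T c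

/-- TE (80 lines; uses TG LPC): a triangle and a disjoint pair. `l = 11/5` on the triangle, `9/5` on `y1, y2`; `mu = 11/5` on
the three pairs of the triangle, `9/5` on the pair `y`; `K = 31/5` (with 0, 1, 2, 3 points of the triangle: `33/5`, `22/5`,
`22/5`, `33/5`; and `9/5` for the pair). Exponent `3 (6/5 - log (11/5)) + 2 (4/5 - log (9/5)) - 31/5 + 42/5 c =
-4.54094 + 8.4 c`. -/
def Stmt_TE : Prop :=
  ∀ {V : Type} [Fintype V] {k : ℕ} (M : Finset (Fin k)) (T : V → Finset (Fin k)) (c : ℝ),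
    Kf M T c → ∀ x1 x2 x3 y1 y2 : Fin k, [x1, x2, x3, y1, y2].Nodup → R T x1 x2 → R T x2 x3 →
    R T x3 x1 → R T y1 y2 → Bd M T c

/-- C5 (100 lines; uses TG LPC): the present pairs are the edges of a 5-cycle. `l = 2` on the five points, `mu = 1` on the five
pairs, `K = 6`: with 0, 1 points (`|T v| ≥ 3`) 8, 7; two neighbours `4 + 2`; two other points `2 + 2 + 1 + 1`
(`|T v| ≥ 3`); three or more points `≥ 6`. Exponent `5 (1 - log 2) - 6 + 5 c`. -/
def Stmt_C5 : Prop :=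
  ∀ {V : Type} [Fintype V] {k : ℕ} (M : Finset (Fin k)) (T : V → Finset (Fin k)) (c : ℝ),
    Kf M T c → ∀ p : Fin 5 → Fin k, Function.Injective p → (∀ i, R T (p i) (p (i + 1))) →
    (∀ v, (T v).card = 2 → ∃ i, T v = {p i, p (i + 1)}) → Bd M T c

/-- TLL (80 lines; uses TG LPC): closed light triangle. `l = 11/5`, `mu = 6/5` and `nu = 1` on the three pairs, `K = 27/5`: a
pair `22/5 + 1`; two points and outside `22/5 + 1`; three points `33/5`; one point, `|T v| ≥ 3`: `11/5 + 2 + 6/5`;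
no point `3 + 18/5`. Exponent `3 (6/5 - log (11/5)) - 27/5 + 33/5 c = -4.16537 + 6.6 c`. -/
def Stmt_TLL : Prop :=
  ∀ {V : Type} [Fintype V] {k : ℕ} (M : Finset (Fin k)) (T : V → Finset (Fin k)) (c : ℝ),
    Kf M T c → Light T c → ∀ x1 x2 x3 : Fin k, R T x1 x2 → R T x2 x3 → R T x3 x1 →
    (∀ v, (T v).card = 2 → T v ⊆ {x1, x2, x3}) → Bd M T c

/-- THL (80 lines; uses TG LPC): closed triangle, `x1 x2` and `x1 x3` heavy, `x2 x3` present and not heavy.
`l = ![17/5, 12/5, 12/5]`, `mu = 2/5` and `nu = 1` on `x2 x3`, `K = 29/5`: (every `T v` contains `x1`, or `x2` and `x3`)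
`{x1, x2}`: `29/5`; `{x2, x3}`: `24/5 + 1`; `x2, x3` and outside: `24/5 + 1`; `x1` and two outside points: `17/5 + 2 + 2/5`.
Exponent `(12/5 - log (17/5)) + 2 (7/5 - log (12/5)) - 29/5 + 7/5 c = -3.57471 + 1.4 c`. -/
def Stmt_THL : Prop :=
  ∀ {V : Type} [Fintype V] {k : ℕ} (M : Finset (Fin k)) (T : V → Finset (Fin k)) (c : ℝ),
    Kf M T c → ∀ x1 x2 x3 : Fin k, x1 ≠ x2 → x1 ≠ x3 → c * Fintype.card V < nx T x1 x2 →
    c * Fintype.card V < nx T x1 x3 → R T x2 x3 → (nx T x2 x3 : ℝ) ≤ c * Fintype.card V →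
    (∀ v, (T v).card = 2 → T v ⊆ {x1, x2, x3}) → Bd M T c

/-- THH (60 lines), three heavy pairs (model `MP_1ce445_sm/TRI.lean`). Every `T w` contains two of the three points:
`p_1 + p_2 + p_3 ≥ 2`, `(1 - p_1)(1 - p_2)(1 - p_3) ≤ 1/27` by AM-GM. -/
def Stmt_THH : Prop :=
  ∀ {V : Type} [Fintype V] {k : ℕ} (M : Finset (Fin k)) (T : V → Finset (Fin k)) (c : ℝ),
    Kf M T c → ∀ x1 x2 x3 : Fin k, x1 ≠ x2 → x1 ≠ x3 → x2 ≠ x3 →
    c * Fintype.card V < nx T x1 x2 → c * Fintype.card V < nx T x1 x3 →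
    c * Fintype.card V < nx T x2 x3 → Bd M T c

/-- PWH (100 lines; uses TG LPC). `x y` and `x z` heavy, `y z` present and not heavy, `x w` present; all other 2-sets
contain `x`. `l`: `18/5` for `x`, `12/5` for `y, z`, `6/5` for `w`; `mu`: `7/5` on `y z`, `4/5` on `x w`; `nu = 2/5` on `y z`;
`K = 6` (every `T v` contains `x`, or `y` and `z`): `{x, y}`: 6; `{y, z}`: `24/5 + 4/5 + 2/5`; `y, z` and outside:
`24/5 + 1 + 4/5`; `{y, z, w}`: 6; `{x, w}`: `24/5 + 7/5`; `{x, o}`, `o` not named: `18/5 + 1 + 7/5`. Exponent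
`(13/5 - log (18/5)) + 2 (7/5 - log (12/5)) + (1/5 - log (6/5)) - 6 + 13/5 c = -3.61419 + 2.6 c`. -/
def Stmt_PWH : Prop :=
  ∀ {V : Type} [Fintype V] {k : ℕ} (M : Finset (Fin k)) (T : V → Finset (Fin k)) (c : ℝ),
    Kf M T c → ∀ x y z w : Fin k, [x, y, z, w].Nodup → c * Fintype.card V < nx T x y →
    c * Fintype.card V < nx T x z → R T y z → (nx T y z : ℝ) ≤ c * Fintype.card V → R T x w →
    (∀ v, (T v).card = 2 → x ∈ T v ∨ T v = {y, z}) → Bd M T c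

/-- PWL (100 lines; uses TG LPC). Light triangle `x y z`, `x w` present, all other 2-sets contain `x`, and
`1 - p_x ≥ 9/20`. `l`: `11/5` for `x`, `21/10` for `y, z`, `3/2` for `w`; `mu`: `21/10` on `y z`, `11/10` on `x y` and `x z`,
`13/10` on `x w`; `nu`: `1/5` on `y z`, `1` on `x y` and `x z`; further term of `ph v`: `2/5` if `x ∈ T v` (sum
`≤ (2/5)(11/20) N`); `K = 57/10`: `{x, y}`: `11/5 + 21/10 + 2/5 + 1`; `x, y` and outside the same; `{x, w}`: `62/10`; `{x, o}`: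
`11/5 + 1 + 2/5 + 21/10`; `{y, z}`: `42/10 + 1/5 + 13/10`; `{y, w, o}`: `21/10 + 3/2 + 1 + 11/10`; `{y, z, w}`: `57/10`;
`{y, o, o'}`: `21/10 + 2 + 11/10 + 13/10`; the others are larger. Exponent `(6/5 - log (11/5)) + 2 (11/10 - log (21/10)) +
(1/2 - log (3/2)) - 57/10 + 22/100 + 39/5 c = -4.25779 + 7.8 c`. -/
def Stmt_PWL : Prop :=
  ∀ {V : Type} [Fintype V] {k : ℕ} (M : Finset (Fin k)) (T : V → Finset (Fin k)) (c : ℝ),
    Kf M T c → Light T c → ∀ x y z w : Fin k, [x, y, z, w].Nodup → R T x y → R T x z →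
    R T y z → R T x w → (∀ v, (T v).card = 2 → x ∈ T v ∨ T v = {y, z}) →
    9 / 20 ≤ 1 - pr T x → Bd M T c

/-- D11 (80 lines; uses TG LPC): the 2-sets are `{x,y}`, `{x,a}`, `{y,b}`. `l = 2` on the four points, `mu = 1` on `x a` and
`y b`, `nu = 1` on `x y`, `K = 5`: `{x,y}`: `4 + 1`; `{x,a}`: `4 + 1`; two named points and outside: `5`; three named points
`6`; one named point, `|T v| ≥ 3`: `2 + 2 + 1`; none: `3 + 2`. Exponent `4 (1 - log 2) - 5 + 3 c`. -/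
def Stmt_D11 : Prop :=
  ∀ {V : Type} [Fintype V] {k : ℕ} (M : Finset (Fin k)) (T : V → Finset (Fin k)) (c : ℝ),
    Kf M T c → Light T c → ∀ x y a b : Fin k, [x, y, a, b].Nodup → R T x y → R T x a →
    R T y b → (∀ v, (T v).card = 2 → T v = {x, y} ∨ T v = {x, a} ∨ T v = {y, b}) → Bd M T c

/-- D21 (100 lines; uses TG LPC). The 2-sets are `{y, b}` and sets `{x, j}`, `j ≠ b`. `l`: `2` for `x, y, b`, `3/2` for `a, a'`;
`mu`: `1/2` on `x a`, `x a'`, `2` on `y b`; `nu = 1` on `x y`; `K = 5`: `{x,y}`: `4 + 1`; `{x,a}`: `7/2 + 2`; `{x,o}`: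
`2 + 1 + 2`; `{y,b}`: `4 + 1`; with `|T v| ≥ 3`: `{x,y,o}`: 5; `{x,b,o}`: 5; `{y,a,o}`: `7/2 + 1 + 1/2`; `{y,a,a'}`: 5;
`{y,o,o'}`: `2 + 2 + 1`; `{a,b,o}`: `7/2 + 1 + 1/2`; `{a,a',b}`: 5; `{b,o,o'}`: `2 + 2 + 1`; the others are larger.
Exponent `3 (1 - log 2) + 2 (1/2 - log (3/2)) - 5 + 4 c = -3.89037 + 4 c`. -/
def Stmt_D21 : Prop :=
  ∀ {V : Type} [Fintype V] {k : ℕ} (M : Finset (Fin k)) (T : V → Finset (Fin k)) (c : ℝ),
    Kf M T c → Light T c → ∀ x y a a' b : Fin k, [x, y, a, a', b].Nodup → R T x y → R T x a →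
    R T x a' → R T y b → (∀ v, (T v).card = 2 → (x ∈ T v ∧ b ∉ T v) ∨ T v = {y, b}) → Bd M T c

/-- D22 (120 lines; uses TG LPC). `l`: `23/10` for `x, y`, `7/5` for `a, a', b, b'`; `mu = 9/10` on `x a, x a', y b, y b'`;
`nu = 1/2` on `x y`; `K = 51/10`: `{x,y}`: `46/10 + 1/2`; `{x,a}`: `37/10 + 18/10`; `{x,o}`: `23/10 + 1 + 18/10`; with
`|T v| ≥ 3`: `{x,y,o}`: `56/10`; `{x,b,o}`: `37/10 + 1 + 9/10`; `{x,b,b'}`: `51/10`; `{a,a',b}`: `42/10 + 9/10`; `{a,a',o}`: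
`28/10 + 1 + 18/10`; the others are larger. Exponent `2 (13/10 - log (23/10)) + 4 (2/5 - log (7/5)) - 51/10 + 41/10 c =
-3.91170 + 4.1 c`. -/
def Stmt_D22 : Prop :=
  ∀ {V : Type} [Fintype V] {k : ℕ} (M : Finset (Fin k)) (T : V → Finset (Fin k)) (c : ℝ),
    Kf M T c → Light T c → ∀ x y a a' b b' : Fin k, [x, y, a, a', b, b'].Nodup → R T x y →
    R T x a → R T x a' → R T y b → R T y b' →
    (∀ v, (T v).card = 2 → (x ∈ T v ∧ b ∉ T v ∧ b' ∉ T v) ∨ (y ∈ T v ∧ a ∉ T v ∧ a' ∉ T v)) →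
    Bd M T c

/-- DW (120 lines; uses TG LPC). `l`: `23/10` for `x, y`, `7/5` for `a, b`, `19/10` for `w`; `mu`: `9/10` on `x y`, `x w`, `y w`,
`7/5` on `x a`, `y b`; `nu = 1` on `x y`; `K = 28/5`: `{x,y}`: `46/10 + 1`; `{x,a}`: `37/10 + 14/10 + 9/10`; `{x,w}`:
`42/10 + 14/10`; `{x,o}`: `23/10 + 1 + 14/10 + 9/10`; with `|T v| ≥ 3`: `{x,y,o}`: `56/10`; `{x,b,o}`: `37/10 + 1 + 9/10`;
`{x,b,w}`: `56/10`; `{a,b,w}`: `47/10 + 9/10`; `{x,a,b}`: `51/10 + 9/10`; the others are larger. Exponent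
`2 (13/10 - log (23/10)) + 2 (2/5 - log (7/5)) + (9/10 - log (19/10)) - 28/5 + 13/2 c = -4.28061 + 6.5 c`. -/
def Stmt_DW : Prop :=
  ∀ {V : Type} [Fintype V] {k : ℕ} (M : Finset (Fin k)) (T : V → Finset (Fin k)) (c : ℝ),
    Kf M T c → Light T c → ∀ x y a b w : Fin k, [x, y, a, b, w].Nodup → R T x y →
    R T x a → R T y b → R T x w → R T y w →
    (∀ v, (T v).card = 2 → (x ∈ T v ∧ b ∉ T v) ∨ (y ∈ T v ∧ a ∉ T v)) → Bd M T c

/-! ### 4-cycles `x1 x3 x2 x4` -/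

/-- PH (100 lines): a heavy diagonal. For every `T v` (it contains `x1` or `x2`):
`2 [x1] + 2 [x2] + [x3] + [x4] + #(missed pairs among the four) ≥ 4` (only `x1`: `2 + 2`; `x1, x3`: `3 + 1`; `x1, x3, x4`:
4; `x1, x2`: 4). So `2 p1 + 2 p2 + p3 + p4 ≥ 4 - 4c`, `u_i = 1 - p_i`: `2 u1 + 2 u2 + u3 + u4 ≤ 2 + 4c`, and by AM-GM
`u1 u2 u3 u4 = (2 u1)(2 u2) u3 u4 / 4 ≤ ((2 + 4c)/4)⁴/4 = (1 + 2c)⁴/64`. The other factors are in `[0, 1]`; the four points
are in `M`. -/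
def Stmt_PH : Prop :=
  ∀ {V : Type} [Fintype V] {k : ℕ} (M : Finset (Fin k)) (T : V → Finset (Fin k)) (c : ℝ),
    Kf M T c → ∀ x1 x2 x3 x4 : Fin k, [x1, x2, x3, x4].Nodup → R T x1 x3 → R T x1 x4 →
    R T x2 x3 → R T x2 x4 → c * Fintype.card V < nx T x1 x2 → Bd M T c

/-- K4 (80 lines): all six pairs are present. With `j` of the four points in `T v`, `6, 3, 1, 0, 0` pairs are missed for
`j = 0, .., 4`: `j + ` missed `≥ 3`. So `∑ p_i ≥ 3 - 6c`, `∑ u_i ≤ 1 + 6c`, and AM-GM. -/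
def Stmt_K4 : Prop :=
  ∀ {V : Type} [Fintype V] {k : ℕ} (M : Finset (Fin k)) (T : V → Finset (Fin k)) (c : ℝ),
    Kf M T c → ∀ x1 x2 x3 x4 : Fin k, [x1, x2, x3, x4].Nodup → R T x1 x3 → R T x1 x4 →
    R T x2 x3 → R T x2 x4 → R T x1 x2 → R T x3 x4 → Bd M T c

/-- mass of the `T v` which contain `a` and `b` and neither `x` nor `y` -/
noncomputable def tr {V : Type} [Fintype V] {k : ℕ} (T : V → Finset (Fin k)) (a b x y : Fin k) : ℝ :=
  ((univ.filter (fun v => a ∈ T v ∧ b ∈ T v ∧ x ∉ T v ∧ y ∉ T v)).card : ℝ) / Fintype.card V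

/-- C4S (120 lines), model AON / STS (3). Let `v` run over the sets with `x3, x4`, without `x1, x2` and `w` over the sets with
`x1, x2`, without `x3, x4`. `T v` is disjoint from at most `c N` of the `T w`, the others have a common point with it,
not named. So `∑_x b_x g_x ≥ tr 34 (tr 12 - c)` over the unnamed `x` (`b_x`, `g_x`: masses of the `v`, `w` which contain
`x`), and `p_x ≥ b_x + g_x`, `p_x² ≥ 4 b_x g_x`. (If the right side is negative the claim is trivial.) -/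
def Stmt_C4S : Prop :=
  ∀ {V : Type} [Fintype V] {k : ℕ} (M : Finset (Fin k)) (T : V → Finset (Fin k)) (c : ℝ),
    Kf M T c → ∀ x1 x2 x3 x4 : Fin k, [x1, x2, x3, x4].Nodup →
    4 * (tr T x3 x4 x1 x2 * (tr T x1 x2 x3 x4 - c)) ≤
      ∑ x ∈ M.filter (fun x => ∀ i, x ≠ ![x1, x2, x3, x4] i), pr T x ^ 2

/-- CKA (150 lines; uses TG LPC C4S). `x3 x4` absent, `x1 x2` present and not heavy. `l = 12/5` for `x1, x2`, `9/5` for `x3, x4`;
`mu`: `9/5` on the four pairs of the cycle, `7/5` on `x1 x2`; `nu = 1` on `x1 x2`; further term of `ph v`: `1/5` if `T v`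
contains `x1, x2` and neither `x3` nor `x4` (sum `(1/5) tr12 N`); `K = 6`: `{x1,x3}`: `21/5 + 9/5`; `{x1,x2}`:
`24/5 + 1/5 + 1`; `x1, x2` and outside: `24/5 + 1/5 + 1`; `x3, x4` and outside: `18/5 + 1 + 7/5`; `{x1,x3,x4}`: 6;
`{x1,x2,x3}`: `33/5`; `{x1,o}`: `12/5 + 1 + 18/5`; `{x3,o}`: `9/5 + 1 + 18/5 + 7/5`; `{o,o'}`: `≥ 2 + 36/5`. By C4S and
`tr34 ≥ 1/10` the term `-(∑ p_x²)/2` is at most `-(1/5)(tr12 - c)` (if `tr12 ≥ c`; otherwise it is `≤ 0 ≤ -(1/5)(tr12 - c)`).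
Exponent `2 (7/5 - log (12/5)) + 2 (4/5 - log (9/5)) - 6 + c (36/5 + 7/5 + 1) + c/5 = -4.52651 + 9.8 c`. -/
def Stmt_CKA : Prop :=
  ∀ {V : Type} [Fintype V] {k : ℕ} (M : Finset (Fin k)) (T : V → Finset (Fin k)) (c : ℝ),
    Kf M T c → ∀ x1 x2 x3 x4 : Fin k, [x1, x2, x3, x4].Nodup → R T x1 x3 → R T x1 x4 →
    R T x2 x3 → R T x2 x4 → R T x1 x2 → (nx T x1 x2 : ℝ) ≤ c * Fintype.card V → ¬ R T x3 x4 →
    1 / 10 ≤ tr T x3 x4 x1 x2 → Bd M T c

/-- CIA (150 lines; uses TG LPC C4S). `x3 x4` and `x1 x2` absent. `l = 2` for `x1, x2`, `21/10` for `x3, x4`; `mu = 11/10` on the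
four pairs; further term `1/5` as in CKA; `K = 26/5`: `{x1,x3}`: `41/10 + 11/10`; `x1, x2` and outside: `4 + 1/5 + 1`;
`x3, x4` and outside: `42/10 + 1`; `{x1,o}`: `3 + 22/10`; `{x3,o}`: `31/10 + 22/10`; three named points `≥ 6`. Exponent
`2 (1 - log 2) + 2 (11/10 - log (21/10)) - 26/5 + 22/5 c + c/5 = -3.87017 + 4.6 c`. -/
def Stmt_CIA : Prop :=
  ∀ {V : Type} [Fintype V] {k : ℕ} (M : Finset (Fin k)) (T : V → Finset (Fin k)) (c : ℝ),
    Kf M T c → ∀ x1 x2 x3 x4 : Fin k, [x1, x2, x3, x4].Nodup → R T x1 x3 → R T x1 x4 →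
    R T x2 x3 → R T x2 x4 → ¬ R T x1 x2 → ¬ R T x3 x4 →
    1 / 10 ≤ tr T x3 x4 x1 x2 → Bd M T c

/-- CB (120 lines; uses TG LPC). `x3 x4` absent, `x1 x2` not heavy, `tr34 ≤ 1/10`. `l = 12/5` for `x1, x2`, `17/10` for `x3, x4`;
`mu = 17/10` on the four pairs; `nu = 1` on `x1 x2`; further term `7/5` if `T v` contains `x3, x4` and neither `x1` nor
`x2` (sum `≤ (7/5)(1/10) N`); `K = 29/5`: `{x1,x3}`: `41/10 + 17/10`; `{x1,x2}`: `24/5 + 1`; `x1, x2` and outside: `24/5 + 1`;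
`x3, x4` and outside: `34/10 + 1 + 14/10`; `{x1,x3,x4}`: `58/10`; `{x1,x2,x3}`: `65/10`; `{x1,o}`: `24/10 + 1 + 34/10`;
`{x3,o}`: `17/10 + 1 + 34/10`. Exponent `2 (7/5 - log (12/5)) + 2 (7/10 - log (17/10)) - 29/5 + 14/100 + c (34/5 + 1) =
-4.27219 + 7.8 c`. -/
def Stmt_CB : Prop :=
  ∀ {V : Type} [Fintype V] {k : ℕ} (M : Finset (Fin k)) (T : V → Finset (Fin k)) (c : ℝ),
    Kf M T c → ∀ x1 x2 x3 x4 : Fin k, [x1, x2, x3, x4].Nodup → R T x1 x3 → R T x1 x4 →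
    R T x2 x3 → R T x2 x4 → (nx T x1 x2 : ℝ) ≤ c * Fintype.card V → ¬ R T x3 x4 →
    tr T x3 x4 x1 x2 ≤ 1 / 10 → Bd M T c

/-- C4 (60 lines; uses PH K4 CKA CIA CB). A diagonal is heavy: PH (exchange `x1 x2` and `x3 x4` if necessary). Otherwise: both
present: K4; exactly one present, we may assume `x1 x2`: CKA or CB; both absent: CIA or CB. (`nx T x1 x2 = 0` if absent.) -/
def Stmt_C4 : Prop :=
  ∀ {V : Type} [Fintype V] {k : ℕ} (M : Finset (Fin k)) (T : V → Finset (Fin k)) (c : ℝ),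
    Kf M T c → ∀ x1 x2 x3 x4 : Fin k, [x1, x2, x3, x4].Nodup → R T x1 x3 → R T x1 x4 →
    R T x2 x3 → R T x2 x4 → Bd M T c

/-! ### Stars -/

/-- STA (150 lines): sums around a point `x`, `b = 1 - p_x`, `om`, `e0` the masses of the 2-sets with and without `x`.
(1) `|T v \ {x}|` summed over `v`: `≥ 1` for the 2-sets with `x`, `2` for the other sets with `x`, `2` for the 2-sets
without `x`, `3` for the others: `om + 2 (1 - b - om) + 2 e0 + 3 (b - e0)`. (2) as STS (3) of `MP_1ce445_k4`: each `T v`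
without `x` meets at least `(1 - c - b) N` sets which contain `x`: `∑ b_j c_j ≥ b (1 - b - c)`, `p_j² ≥ 4 b_j c_j`.
(3) if all 2-sets contain `x` and no pair is heavy: for `x ∉ T v` the 2-sets `{x, j}`, `j ∉ T v`, are disjoint from `T v`, so
`∑_{j ∈ T v} nx T x j ≥ (om - c) N` and `|T v| ≥ (om - c)/c`; in (1) replace `3` by `om/c - 1`. (4) `x j` present: at most
`c N` sets contain neither, so at least `(b - c) N` contain `j` and not `x`; the sets equal to `{x, j}` contain both. -/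
def Stmt_STA : Prop :=
  ∀ {V : Type} [Fintype V] {k : ℕ} (M : Finset (Fin k)) (T : V → Finset (Fin k)) (c : ℝ),
    Kf M T c → ∀ (x : Fin k) (om e0 : ℝ),
    om = ((univ.filter (fun v => (T v).card = 2 ∧ x ∈ T v)).card : ℝ) / Fintype.card V →
    e0 = ((univ.filter (fun v => (T v).card = 2 ∧ x ∉ T v)).card : ℝ) / Fintype.card V →
    2 + (1 - pr T x) - om - e0 ≤ ∑ j ∈ M.erase x, pr T j ∧
    4 * (1 - pr T x) * (pr T x - c) ≤ ∑ j ∈ M.erase x, pr T j ^ 2 ∧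
    (e0 = 0 → Light T c →
      2 * pr T x - om + (1 - pr T x) * (om / c - 1) ≤ ∑ j ∈ M.erase x, pr T j) ∧
    ∀ j, R T x j → (nx T x j : ℝ) / Fintype.card V + (1 - pr T x) - c ≤ pr T j

/-- R1 (100 lines; uses TG), real numbers. `log b - 0.8883 (2 + b - 4c) - 3.886 b (1 - b - c) = f(b) + (3.5532 + 3.886 b) c` with
`f b = log b - 1.7766 - 0.8883 b - 3.886 b (1 - b)`; the whole is increasing in `b` on `(0, 9/20]` (derivative
`1/b - 0.8883 - 3.886 (1 - c) + 7.772 b ≥ 2 √7.772 - 0.8883 - 3.886 (1 - c) > 0`), so let `b = 9/20`: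
`-3.93665 + 5.3019 c` (at `0.1204`: `-3.29828`; at `0.1306`: `-3.2442`), TG. Second part: `b ≤ c`, `S ≥ 1 + 2b`: in the same way
increasing in `b`, so `b = c`: `log c - 0.8883 (1 + 2c) - 3.886 c (1 - 2c) ≤ -3.5` or so (at `c = 0.17` `-3.40`, BB `≥ exp
(-2.74)` there): use `log c ≤ log (17/100)` for `c ≥ 3/20` and `log c ≤ log (3/20)` below. -/
def Stmt_R1 : Prop :=
  (∀ c b S S2 : ℝ, 301 / 2500 ≤ c → c ≤ 17 / 100 → 0 ≤ b → b ≤ 9 / 20 → 2 + b - 4 * c ≤ S →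
    4 * b * (1 - b - c) ≤ S2 →
    b * Real.exp (-(8883 / 10000 * S + 1943 / 2000 * S2)) ≤ BB c) ∧
  ∀ c b S S2 : ℝ, 301 / 2500 ≤ c → c ≤ 17 / 100 → 0 ≤ b → b ≤ c → 1 + 2 * b ≤ S →
    4 * b * (1 - b - c) ≤ S2 →
    b * Real.exp (-(8883 / 10000 * S + 1943 / 2000 * S2)) ≤ BB c

/-- R2 (100 lines; uses TG), real numbers. The exponent of the left side is at most
`log b + n (4/5 - log (9/5)) - (4/5)(om + n (b - c)) - (2 + b - min om (4c))`. The coefficient of `n` is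
`X = 0.212213 - (4/5)(b - c) < 0` (`b - c ≥ 0.28`). `om ≤ n c` and `-(4/5) om + min om (4c) ≤ (1/5) min (n c) (4c)`. So for `n = 3`:
`log b + 3X + (3/5) c - 2 - b`, for `n ≥ 4`: `≤ log b + 4X + (4/5) c - 2 - b`; both are decreasing in `b` (derivative
`1/b - 12/5 - 1 < 0`), at `b = 9/20` they are `-3.69187 + 3 c` and `-3.83965 + 4 c`. TG. -/
def Stmt_R2 : Prop :=
  ∀ (c b om S Sn : ℝ) (n : ℕ), 301 / 2500 ≤ c → c ≤ 17 / 100 → 9 / 20 ≤ b → b ≤ 1 → 0 ≤ om →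
    3 ≤ n → om ≤ n * c → 2 + b - min om (4 * c) ≤ S → om + n * (b - c) ≤ Sn →
    b * (5 / 9 * Real.exp (4 / 5)) ^ n * Real.exp (-(4 / 5 * Sn + S)) ≤ BB c

/-- STL (150 lines; uses TA STA R1 R2): a light star with more than `2 c N` 2-sets. The product is
`b ∏_{M \ x} (1 - p_j)`, `b = 1 - p_x`, `S = ∑_{j ≠ x} p_j`. `om > 2c`, so there are `n ≥ 3` leaves (`R T x j`), `om ≤ n c`. STA (1):
`S ≥ 2 + b - om`. (3): `S ≥ 2 (1 - b) - om + b (om/c - 1)`; if `om ≥ 4c` and `b ≥ c` this is `≥ 2 + b - 4c`. So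
`S ≥ 2 + b - min om (4c)` if `b ≥ c`. `om ≤ 1 - b`, so `S ≥ 1 + 2b`. Case `b ≤ c`: TA, R1 second part. `c ≤ b ≤ 9/20`: TA, R1
first part. `b ≥ 9/20`: for the leaves `1 - p ≤ (5/9) exp (4/5) exp (-(9/5) p)` (`y ≤ exp (y - 1)`, `y = (9/5)(1 - p)`), for the
others `1 - p ≤ exp (-p)`; `Sn` = sum of `p_j` over the leaves `≥ om + n (b - c)` by (4); R2. -/
def Stmt_STL : Prop :=
  ∀ {V : Type} [Fintype V] {k : ℕ} (M : Finset (Fin k)) (T : V → Finset (Fin k)) (c : ℝ),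
    Kf M T c → Light T c → ∀ x : Fin k, (∀ v, (T v).card = 2 → x ∈ T v) →
    2 * c * Fintype.card V < n2 T → Bd M T c

/-- PWS (80 lines; uses TA STA R1). As PWL, but `1 - p_x ≤ 9/20`. 2-sets with `x`: `{x,y}`, `{x,z}` and those which are disjoint
from `{y,z}`: `om ≤ 3c`; `e0 ≤ c`. STA (1), (2), TA, R1 first part. -/
def Stmt_PWS : Prop :=
  ∀ {V : Type} [Fintype V] {k : ℕ} (M : Finset (Fin k)) (T : V → Finset (Fin k)) (c : ℝ),
    Kf M T c → Light T c → ∀ x y z : Fin k, [x, y, z].Nodup → R T y z →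
    (∀ v, (T v).card = 2 → x ∈ T v ∨ T v = {y, z}) → 1 - pr T x ≤ 9 / 20 → Bd M T c

/-! ### A heavy pair -/

/-- HVR (120 lines; uses TG), real numbers, `b = 1 - p_x`, `g = 1 - p_y`, `A = 0.8883`, `B = 3.886`. First case
(`2b + 2g - 3c ≤ S`): the average of the two bounds is `S2 ≥ 4 b g - 2 c (b + g)`; with `t = √(b g)`, `b + g ≥ 2t` (and
`-2A + 2 c · 0.9715 < 0`): the logarithm is at most `2 log t - A (4t - 3c) - B t² + B c t`, and with
`log t ≤ log (69/200) + (200/69) t - 1` a concave quadratic polynomial in `t` with maximum `≤ -3.3346 + 4.01 (c - 0.1204)`.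
Second case (`2b + g ≤ S`): with `S2 ≥ 4 b (g - c)` the logarithm is at most
`log b + log g - (A + B b) g - 2A b + B c b`; `g exp (-(A + B b) g) ≤ exp (-1)/(A + B b)`; so
`≤ log (b/(A + B b)) - 1 - (2A - B c) b`, and `log (b/(A + B b)) ≤ log r0 + (b/(A + B b) - r0)/r0`, or concavity in `b`: the maximum
is at `b ≈ 0.319`, value `-3.3152` for `c = 0.1204`, and the slope in `c` is `B b ≤ 3.886`. Third case: exchange `b`, `g`. -/
def Stmt_HVR : Prop :=
  ∀ c b g S S2 : ℝ, 301 / 2500 ≤ c → c ≤ 17 / 100 → 0 ≤ b → 0 ≤ g → b + g ≤ 1 → 0 ≤ S → 0 ≤ S2 →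
    4 * b * (g - c) ≤ S2 → 4 * g * (b - c) ≤ S2 →
    (2 * b + 2 * g - 3 * c ≤ S ∨ 2 * b + g ≤ S ∨ b + 2 * g ≤ S) →
    b * g * Real.exp (-(8883 / 10000 * S + 1943 / 2000 * S2)) ≤ BB c

/-- mass of the 2-sets which contain `a` and not `b` -/
noncomputable def pw {V : Type} [Fintype V] {k : ℕ} (T : V → Finset (Fin k)) (a b : Fin k) : ℝ :=
  ((univ.filter (fun v => (T v).card = 2 ∧ a ∈ T v ∧ b ∉ T v)).card : ℝ) / Fintype.card V

/-- HV (150 lines; uses TA HVR). `x y` heavy: every `T v` contains `x` or `y`. `b = 1 - p_x`, `g = 1 - p_y` (masses of disjoint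
classes). A set without `x` contains `y` and at least two further points, except the 2-sets (mass `pw y x`): one. The
same for the sets without `y`. So `S = ∑_{j ≠ x, y} p_j ≥ 2b + 2g - pw x y - pw y x`. A set without `x` is disjoint from at
most `c N` of the sets without `y`, the common points are not `x`, `y`: `∑ b_j g_j ≥ b (g - c)`, `p_j ≥ b_j + g_j`,
`S2 = ∑_{j ≠ x, y} p_j² ≥ 4 b (g - c)`; in the same way `≥ 4 g (b - c)`. `pw x y ≤ g`, `pw y x ≤ b`. The product is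
`b g ∏_{j ≠ x, y} (1 - p_j)`, TA, HVR. -/
def Stmt_HV : Prop :=
  ∀ {V : Type} [Fintype V] {k : ℕ} (M : Finset (Fin k)) (T : V → Finset (Fin k)) (c : ℝ),
    Kf M T c → ∀ x y : Fin k, x ≠ y → c * Fintype.card V < nx T x y →
    (pw T x y + pw T y x ≤ 3 * c ∨ pw T x y = 0 ∨ pw T y x = 0) → Bd M T c

/-- HCA (150 lines; uses C4 THL THH PWH HV): a heavy pair `x y`. All 2-sets contain `x` or `y`. If HV does not apply:
`pw x y, pw y x > 0`, `pw x y + pw y x > 3c`, we may assume `pw x y ≥ pw y x`, so `pw x y > c`. Let `{y, z}` be present, `z ≠ x`. The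
2-sets `{x, w}`, `w ≠ y, z`, are disjoint from `{y, z}`, so `nx T x z ≥ (pw x y - c) N > 0`: `x z` is present. If there are two
such `z, z'`: the 4-cycle `x z y z'`, C4 (`x1 = x`, `x2 = y`, `x3 = z`, `x4 = z'`). If there is only one `z`:
`pw y x = nx T y z / N`. If `pw y x ≤ c`: `pw x y > 2c`, `x z` is heavy; if there is a 2-set `{x, w}`, `w ≠ y, z`: PWH, if
not: THL (`x1 = x`). If `pw y x > c`: `y z` is heavy, every 2-set `{x, w}` with `w ≠ y` meets it, so `w = z`: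
`nx T x z = pw x y N > c N`, THH. -/
def Stmt_HCA : Prop :=
  ∀ {V : Type} [Fintype V] {k : ℕ} (M : Finset (Fin k)) (T : V → Finset (Fin k)) (c : ℝ),
    Kf M T c → ∀ x y : Fin k, x ≠ y → c * Fintype.card V < nx T x y → Bd M T c

/-! ### The graphs -/

/-- CL7 (250 lines), pure combinatorics. Assume that (2) three disjoint pairs, (3) a 4-cycle, (4) a triangle with a
disjoint pair do not exist. STEP 1: any two pairs meet: (0), (1) or (5) (Step 1 of CLS in `MP_1ce445_k4`). STEP 2: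
`Q a b`, `Q c d`, four different points, `F = {a, b, c, d}`. Not (2): each pair meets `F`. `out u = {w ∉ F | Q u w}`. If
`w ∈ out a`, `w' ∈ out b`: `w ≠ w'` gives (2), `w = w'` gives (4) with `c d`. So one of `out a`, `out b` is empty, say `out b`,
and one of `out c`, `out d`, say `out d`. Cross pairs: not both `a c, b d` and not both `a d, b c` (4-cycle). So they are:
none, one, or `{ac, ad}`, `{ac, bc}`, `{ad, bd}`, `{bc, bd}`. A common neighbour of two points other than the ones in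
question always gives a 4-cycle. (i) `ac, ad`: `out c` empty: (6) with `x = a`, `{y,z} = {c,d}`, `w = b`. Otherwise `w ∈ out c`:
(8) with hubs `a, c`, leaves `b` and `w` (`Q a w` gives the cycle `c w a d`). (ii) `ac, bc`: the same with `a, b` and `c, d`
exchanged. (iii) `ad, bd`: `out c` is empty (else triangle `a b d` and `c w`); `out a` empty: (6) with `x = d`,
`{y,z} = {a,b}`, `w = c`; otherwise (8) with hubs `a, d`, leaves `w ∈ out a` and `c`. (iv) `bc, bd`: the same exchanged.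
None, or only `ac`: (8) with hubs `a, c`, leaves `b, d`. Only `ad`: `out c` empty: (8) hubs `a, d`, leaves `b, c`; `w ∈ out c`:
(8) hubs `a, c`, leaves `b, w`. Only `bc`: exchanged. Only `bd`: `out a`, `out c` empty: (8) hubs `b, d`, leaves `a, c`;
`w ∈ out a`, `out c` empty: (8) hubs `a, d`, leaves `w, c`; exchanged; `w ∈ out a`, `w' ∈ out c`: `w = w'` (else `aw, cw', bd`), both
are `{w}`: the 5-cycle `a b d c w`, (7). -/
def Stmt_CL7 : Prop :=
  ∀ {k : ℕ} (Q : Fin k → Fin k → Prop), (∀ a b, Q a b → Q b a) → (∀ a, ¬ Q a a) →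
    (∀ a b, ¬ Q a b) ∨
    (∃ x, ∀ u v, Q u v → u = x ∨ v = x) ∨
    (∃ a1 b1 a2 b2 a3 b3, [a1, b1, a2, b2, a3, b3].Nodup ∧ Q a1 b1 ∧ Q a2 b2 ∧ Q a3 b3) ∨
    (∃ x1 x2 x3 x4, [x1, x2, x3, x4].Nodup ∧ Q x1 x3 ∧ Q x1 x4 ∧ Q x2 x3 ∧ Q x2 x4) ∨
    (∃ x1 x2 x3 y1 y2, [x1, x2, x3, y1, y2].Nodup ∧ Q x1 x2 ∧ Q x2 x3 ∧ Q x3 x1 ∧ Q y1 y2) ∨
    (∃ x1 x2 x3, Q x1 x2 ∧ Q x2 x3 ∧ Q x3 x1 ∧
      ∀ u v, Q u v → (u = x1 ∨ u = x2 ∨ u = x3) ∧ (v = x1 ∨ v = x2 ∨ v = x3)) ∨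
    (∃ x y z w, [x, y, z, w].Nodup ∧ Q x y ∧ Q x z ∧ Q y z ∧ Q x w ∧
      ∀ u v, Q u v → u = x ∨ v = x ∨ (u = y ∧ v = z) ∨ (u = z ∧ v = y)) ∨
    (∃ p : Fin 5 → Fin k, Function.Injective p ∧ (∀ i, Q (p i) (p (i + 1))) ∧
      ∀ u v, Q u v → ∃ i, (u = p i ∧ v = p (i + 1)) ∨ (v = p i ∧ u = p (i + 1))) ∨
    (∃ x y a b, [x, y, a, b].Nodup ∧ Q x a ∧ ¬ Q y a ∧ Q y b ∧ ¬ Q x b ∧
      ∀ u v, Q u v → u = x ∨ v = x ∨ u = y ∨ v = y)

/-- DBL (120 lines; uses THR C4 D11 D21 D22 DW), double stars: (8) of CL7. `x y` absent: the 2-sets with `x` are disjoint from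
`{y, b}`, those with `y` from `{x, a}`: at most `2 c N`, THR. `x y` present: if there are two common neighbours: C4
(`x1 = x`, `x2 = y`). If there is exactly one, `w`: DW. If there is none: let `r`, `s` be the numbers of the neighbours of
`x` other than `y` and of `y` other than `x`: `r = s = 1`: D11; `r ≥ 2`, `s = 1`: D21; `r = 1`, `s ≥ 2`: D21 with `x`, `y`
exchanged; `r, s ≥ 2`: D22. -/
def Stmt_DBL : Prop :=
  ∀ {V : Type} [Fintype V] {k : ℕ} (M : Finset (Fin k)) (T : V → Finset (Fin k)) (c : ℝ),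
    Kf M T c → Light T c → ∀ x y a b : Fin k, [x, y, a, b].Nodup → R T x a → ¬ R T y a →
    R T y b → ¬ R T x b → (∀ v, (T v).card = 2 → x ∈ T v ∨ y ∈ T v) → Bd M T c

/-- ALT (150 lines; uses THR STL M3 C4 TE TLL PWL PWS C5 DBL CL7 HCA). If some pair is heavy: HCA. Otherwise `Light`. If
`n2 ≤ 2 c N`: THR. Otherwise CL7 for `Q = R T`: (0) impossible (`n2 > 0`); (1) STL; (2) M3; (3) C4; (4) TE; (5) TLL; (6) PWL or
PWS; (7) C5; (8) DBL. If `|T v| = 2` then `T v = {a, b}` with `R T a b`. -/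
def Stmt_ALT : Prop :=
  ∀ {V : Type} [Fintype V] {k : ℕ} (M : Finset (Fin k)) (T : V → Finset (Fin k)) (c : ℝ),
    Kf M T c → Bd M T c

/-- ONE (150 lines; uses TG TA; model `MP_1ce445_k4/ONE.lean`): exactly one singleton `{i}`, `q = 1 - p_i ≤ c` (`few`). If `q = 0`
the product is `0`. Otherwise a `T w` without `i` is disjoint from all sets `{i}`, so their mass is `≤ c`. As in
`MP_1ce445_k4/ONE.lean`: `S = ∑_{x ≠ i} p_x ≥ (1 - q - c) + 2q`, `S2 ≥ 4 q (1 - q - c)`. TA. The logarithm is at most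
`log q - 0.8883 (1 + q - c) - 3.886 q (1 - q - c)`, increasing in `q ≤ c` (derivative
`≥ 1/q - 0.8883 - 3.886 (1 - c) > 0`), so at most `g c = log c - 0.8883 - 3.886 c (1 - 2c)`, concave in `c`, so at most its
tangent at `653/5000`, `-4.0564 + 5.8016 c`; TG. -/
def Stmt_ONE : Prop :=
  ∀ {V : Type} [Fintype V] {k : ℕ} (M : Finset (Fin k)) (T : V → Finset (Fin k)) (c : ℝ),
    Kg M T c → ∀ (i : Fin k) (u : V), T u = {i} → (∀ (j : Fin k) (v : V), T v = {j} → j = i) →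
    Bd M T c

/-- ALG (60 lines; uses ALT ONE; model `MP_1ce445_k4/ALG.lean`). `T v = ∅` is impossible (`few` for `v`, `c < 1`). Two different
singletons: `1 - p_i, 1 - p_j ≤ c`, the product is `≤ c² ≤ 1/27`. One singleton: ONE. None: ALT. -/
def Stmt_ALG : Prop :=
  ∀ {V : Type} [Fintype V] {k : ℕ} (M : Finset (Fin k)) (T : V → Finset (Fin k)) (c : ℝ),
    Kg M T c → Bd M T c

/-- UPS (200 lines; uses CORE (of `MP_1ce445_lin`) ALG; models `MP_1ce445_k4/UPK.lean`, `MP_1ce445_sm/UP3.lean`).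
`e^{-4} ≤ 1/27`. In the second alternative of CORE: `c' = max (301/2500) (k/n + 3 s)`, `c' ≤ 17/100`; ALG:
`∏_M (1 - q_j) ≤ BB c' ≤ BB (k/n) + 36 s` (`BB (301/2500) = 1/27`: `(1 + 2c)⁴/64 ≤ 1/27` there; `BB` is monotone, and its
derivative is at most `12`). -/
def Stmt_UPS : Prop :=
  ∀ ε : ℝ, 0 < ε → ∃ n0 : ℕ, ∀ n k : ℕ, n0 ≤ n → (k : ℝ) ≤ n / 6 →
    (P n k : ℝ) ≤ (BB ((k : ℝ) / n) + ε) * (NN n : ℝ) ^ k

end Pool.Agent.Work.MP_1ce445_s7
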